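import Mathlib
import Pool.Agent.H630R2.LA.Defs

set_option autoImplicit false

/-!
Tapes of 1-limited automata that differ from a standard tape in few cells.
-/

namespace Pool.Agent.TH588.KG

open Pool.Agent.H630R2.LA (LimAut Sym)

variable {A : Type}

/-- All but at most `k` of the cells of the input `w` contain on the tape `τ` the symbol that `g`
gives for the input letter. -/
def AllBut (M : LimAut A) (g : A → M.W) (k : ℕ) (w : List A) (τ : ℕ → Sym M.W) : Prop :=
  ∃ S : Finset ℕ, S.card ≤ k ∧ ∀ (i : ℕ) (a : A), w[i]? = some a → i ∉ S →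
    τ (i + 1) = .sym (g a)

end Pool.Agent.TH588.KG
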