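import Mathlib
import Pool.Agent.H630R2.LA.Defs

set_option autoImplicit false

/-!
Computations of 1-limited automata whose states are divided into classes.
-/

namespace Pool.Agent.TH588.KG

open Pool.Agent.H630R2.LA (LimAut Cfg Step init)

variable {A : Type}

/-- Some computation on `w` reaches the configuration `c`, and at most `j` of its moves change the
class `κ` of the state. -/
inductive After (strict : Prop) {M : LimAut A} {C : Type} (κ : M.Q → C) (w : List A) :
    ℕ → Cfg M → Prop
  | start (j : ℕ) : After strict κ w j (init M w)
  | keep (j : ℕ) (c c' : Cfg M) : After strict κ w j c → Step strict w.length c c' →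
      κ c'.state = κ c.state → After strict κ w j c'
  | change (j : ℕ) (c c' : Cfg M) : After strict κ w j c → Step strict w.length c c' →
      After strict κ w (j + 1) c'

end Pool.Agent.TH588.KG
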