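import Mathlib
import Pool.Agent.H630R2.LA.Reach
import Pool.Agent.TH588.KG.Cmd

set_option autoImplicit false

/-!
Programs that decide reachability in an automaton all of whose runs follow, except for a bounded
number of moves, a deterministic transition function.
-/

namespace Pool.Agent.TH588.KG

open Relation Cmd
open Pool.Agent.H630R2.LA (path path_add)

variable {S P : Type}

/-- The deterministic run on `n` cells. -/
def dit (d : S → P → P) (τ : ℕ → S) : ℕ → ℕ → P → P
  | _, 0, p => p
  | x, n + 1, p => dit d τ (x + 1) n (d (τ x) p)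

/-- The transition relation: the deterministic move or a jump. -/
def lrd [DecidableEq P] (d : S → P → P) (jp : S → P → P → Bool) (σ : S) (p q : P) : Bool :=
  decide (q = d σ p) || jp σ p q

theorem pl1 {a b : Prop} : (a ∧ b) ∨ (¬ a ∧ False) ↔ a ∧ b := by tauto

theorem pl2 {a b : Prop} : (a ∧ True) ∨ (¬ a ∧ b) ↔ a ∨ b := by tauto

section drun

variable [DecidableEq P] [Finite P]

/-- The next state of the automaton of `drun`. -/
def dnx (d : S → P → P) (n : ℕ) (q : P) (z : Fin (n + 2) × P) (σ : S) :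
    (Fin (n + 2) × P) ⊕ Bool :=
  if h : z.1.val + 1 < n + 2 then Sum.inl (⟨z.1.val + 1, h⟩, d σ z.2)
  else Sum.inr (decide (d σ z.2 = q))

/-- The direction of the automaton of `drun`. -/
def ddir (n : ℕ) (z : Fin (n + 2) × P) (_ : S) : Bool := decide (z.1.val + 1 < n + 2)

/-- Does the deterministic run from `p` on `n` cells end in `q`? -/
def drun (d : S → P → P) : ℕ → P → P → Cmd S
  | 0, p, q => ret (decide (p = q))
  | 1, p, q => test (fun σ => decide (d σ p = q))
  | n + 2, p, q => thenLeft (aut (Fin (n + 2) × P) inferInstance (0, p) (dnx d n q) (ddir n)) n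

theorem run_drun {d : S → P → P} {τ : ℕ → S} {hi : ℕ} {n : ℕ} {q : P} {x : ℕ}
    (hx : x + n + 1 ≤ hi) (r : ℕ) : ∀ (i : ℕ) (m : P) (h : i < n + 2), i + r = n + 1 →
    Run τ hi (aut (Fin (n + 2) × P) inferInstance (⟨i, h⟩, m) (dnx d n q) (ddir n)) (x + i)
      (decide (dit d τ (x + i) (r + 1) m = q)) (x + n) := by
  induction r with
  | zero =>
    intro i m h hi'
    have hn : ¬ (i + 1 < n + 2) := by omega
    refine Run.stop _ _ _ _ _ _ _ _ (by omega) ?_ ?_ ?_
    · simp only [dnx, dif_neg hn]
      rfl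
    · intro h2
      simp only [ddir, decide_eq_true_eq] at h2
      omega
    · intro _
      omega
  | succ r ih =>
    intro i m h hi'
    have hn : i + 1 < n + 2 := by omega
    have h3 := ih (i + 1) (d (τ (x + i)) m) hn (by omega)
    refine Run.loop _ _ _ (⟨i + 1, hn⟩, d (τ (x + i)) m) _ _ (x + i) (x + i + 1) _ _ (by omega)
      ?_ ?_ ?_ h3
    · simp only [dnx, dif_pos hn]
    · intro _; rfl
    · intro h2
      simp only [ddir, decide_eq_false_iff_not] at h2
      omega

theorem decides_drun {d : S → P → P} {τ : ℕ → S} {hi : ℕ} (n : ℕ) {p q : P} {x : ℕ}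
    (hx : 1 ≤ x) (hxn : x + n ≤ hi + 1) :
    Decides τ hi (drun d n p q) x x (dit d τ x n p = q) := by
  match n with
  | 0 => exact (decides_ret τ hi x _).congr (by simp [dit])
  | 1 => exact (decides_test _ hx (by omega)).congr (by simp [dit])
  | n + 2 =>
    have h1 := run_drun (d := d) (τ := τ) (hi := hi) (n := n) (q := q) (x := x) (by omega)
      (n + 1) 0 p (by omega) (by omega)
    refine decides_thenLeft (n := n) ?_ (by omega)
    exact ⟨_, h1, by simp⟩

theorem cnt_drun {d : S → P → P} (n : ℕ) {p q : P} :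
    (drun d n p q).cnt ≤ n * Nat.card P + 2 * n := by
  have hP : 1 ≤ Nat.card P := by
    have : Nonempty P := ⟨p⟩
    exact Nat.card_pos
  match n with
  | 0 => exact Nat.zero_le _
  | 1 =>
    simp only [drun, cnt_test]
    omega
  | n + 2 =>
    simp only [drun, cnt_thenLeft, cnt, Nat.card_prod, Nat.card_eq_fintype_card, Fintype.card_fin]
    omega

end drun

section rank

variable [DecidableEq P] [Finite P]

/-- Reachability with less than `2 ^ i` jumps: there is a jump with less than `2 ^ (i - 1)` jumps on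
either side of it. -/
def svp (l : List P) (d : S → P → P) (jp : S → P → P → Bool) : ℕ → ℕ → P → P → Cmd S
  | 0, n, p, q => drun d n p q
  | i + 1, n, p, q => ite (svp l d jp i n p q) (ret true)
      (orL (List.finRange n) (fun s => orL l (fun m => ite (svp l d jp i s.val p m)
        (mvs true s.val (thenLeft (orL l (fun m' => ite (test (fun σ => jp σ m m'))
          (if n - s.val - 1 = 0 then ret (decide (m' = q)) else
            mvs true 1 (thenLeft (svp l d jp i (n - s.val - 1) m' q) 1)) (ret false))) s.val))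
        (ret false))))

/-- The relation decided by `svp`. -/
def rj (d : S → P → P) (jp : S → P → P → Bool) (τ : ℕ → S) : ℕ → ℕ → ℕ → P → P → Prop
  | 0, x, n, p, q => dit d τ x n p = q
  | i + 1, x, n, p, q => rj d jp τ i x n p q ∨ ∃ s : Fin n, ∃ m, rj d jp τ i x s.val p m ∧ ∃ m',
      jp (τ (x + s.val)) m m' = true ∧ rj d jp τ i (x + s.val + 1) (n - s.val - 1) m' q

omit [DecidableEq P] [Finite P] in
theorem rj_zero {d : S → P → P} {jp : S → P → P → Bool} {τ : ℕ → S} (i : ℕ) :
    ∀ (x : ℕ) (p q : P), rj d jp τ i x 0 p q ↔ p = q := by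
  induction i with
  | zero => intro x p q; exact Iff.rfl
  | succ i ih =>
    intro x p q
    constructor
    · rintro (h | ⟨s, _⟩)
      · exact (ih _ _ _).1 h
      · exact s.elim0
    · intro h
      exact Or.inl ((ih _ _ _).2 h)

theorem decides_svp {l : List P} (hl : ∀ m, m ∈ l) {d : S → P → P} {jp : S → P → P → Bool}
    {τ : ℕ → S} {hi : ℕ} (i : ℕ) :
    ∀ (n x : ℕ) (p q : P), 1 ≤ x → x + n ≤ hi + 1 →
    Decides τ hi (svp l d jp i n p q) x x (rj d jp τ i x n p q) := by
  induction i with
  | zero =>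
    intro n x p q hx hxn
    exact decides_drun n hx hxn
  | succ i ih =>
    intro n x p q hx hxn
    have key : ∀ s : Fin n, ∀ m : P, Decides τ hi (ite (svp l d jp i s.val p m)
        (mvs true s.val (thenLeft (orL l (fun m' => ite (test (fun σ => jp σ m m'))
          (if n - s.val - 1 = 0 then ret (decide (m' = q)) else
            mvs true 1 (thenLeft (svp l d jp i (n - s.val - 1) m' q) 1)) (ret false))) s.val))
        (ret false)) x x
        (rj d jp τ i x s.val p m ∧ ∃ m', jp (τ (x + s.val)) m m' = true ∧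
          rj d jp τ i (x + s.val + 1) (n - s.val - 1) m' q) := by
      intro s m
      have hs := s.isLt
      refine (decides_ite (χ := False) (ψ := ∃ m', jp (τ (x + s.val)) m m' = true ∧
          rj d jp τ i (x + s.val + 1) (n - s.val - 1) m' q)
        (ih s.val x p m hx (by omega)) (fun _ => ?_)
        (fun _ => (decides_ret _ _ _ _).congr (by simp))).congr pl1
      apply decides_mvs_right (by omega)
      apply decides_thenLeft _ (by omega)
      refine (decides_orL l _ (fun m' => jp (τ (x + s.val)) m m' = true ∧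
          rj d jp τ i (x + s.val + 1) (n - s.val - 1) m' q) (fun m' => ?_)).congr ?_
      · refine (decides_ite (χ := False)
          (ψ := rj d jp τ i (x + s.val + 1) (n - s.val - 1) m' q)
          (decides_test _ (by omega) (by omega)) (fun _ => ?_)
          (fun _ => (decides_ret _ _ _ _).congr (by simp))).congr (by tauto)
        by_cases h0 : n - s.val - 1 = 0
        · rw [if_pos h0, h0]
          refine (decides_ret _ _ _ _).congr ?_
          rw [rj_zero, decide_eq_true_eq]
        · rw [if_neg h0]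
          apply decides_mvs_right (by omega)
          apply decides_thenLeft _ (by omega)
          exact ih _ _ _ _ (by omega) (by omega)
      · constructor
        · rintro ⟨m', _, h⟩; exact ⟨m', h⟩
        · rintro ⟨m', h⟩; exact ⟨m', hl m', h⟩
    refine (decides_ite (ψ := True) (χ := ∃ s : Fin n, ∃ m, rj d jp τ i x s.val p m ∧ ∃ m',
        jp (τ (x + s.val)) m m' = true ∧ rj d jp τ i (x + s.val + 1) (n - s.val - 1) m' q)
      (ih n x p q hx hxn) (fun _ => (decides_ret _ _ _ _).congr (by simp))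
      (fun _ => ?_)).congr pl2
    refine (decides_orL _ _ _ (fun s => (decides_orL l _ _ (key s)))).congr ?_
    constructor
    · rintro ⟨s, _, m, _, h⟩; exact ⟨s, m, h⟩
    · rintro ⟨s, m, h⟩; exact ⟨s, List.mem_finRange s, m, hl m, h⟩

omit [Finite P] in
theorem path_iff {d : S → P → P} {jp : S → P → P → Bool} {τ : ℕ → S} (n : ℕ) :
    ∀ (x : ℕ) (p q : P), path (lrd d jp) τ x n p q ↔
      (dit d τ x n p = q ∨ ∃ s : Fin n, ∃ m, dit d τ x s.val p = m ∧ ∃ m',
        jp (τ (x + s.val)) m m' = true ∧ path (lrd d jp) τ (x + s.val + 1) (n - s.val - 1) m' q) := by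
  induction n with
  | zero =>
    intro x p q
    simp only [path, dit]
    constructor
    · intro h; exact Or.inl h
    · rintro (h | ⟨s, _⟩)
      · exact h
      · exact s.elim0
  | succ n ih =>
    intro x p q
    simp only [path]
    constructor
    · rintro ⟨m, h1, h2⟩
      rw [lrd, Bool.or_eq_true, decide_eq_true_eq] at h1
      rcases h1 with h1 | h1
      · subst h1
        rcases (ih (x + 1) _ q).1 h2 with h3 | ⟨s, m, h3, m', h4, h5⟩
        · exact Or.inl h3
        · refine Or.inr ⟨⟨s.val + 1, by omega⟩, m, h3, m', ?_, ?_⟩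
          · have : x + (s.val + 1) = x + 1 + s.val := by omega
            show jp (τ (x + (s.val + 1))) m m' = true
            rw [this]; exact h4
          · have e1 : x + (s.val + 1) + 1 = x + 1 + s.val + 1 := by omega
            have e2 : n + 1 - (s.val + 1) - 1 = n - s.val - 1 := by omega
            show path (lrd d jp) τ (x + (s.val + 1) + 1) (n + 1 - (s.val + 1) - 1) m' q
            rw [e1, e2]; exact h5
      · refine Or.inr ⟨⟨0, by omega⟩, p, rfl, m, h1, ?_⟩
        have e2 : n + 1 - 0 - 1 = n := by omega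
        show path (lrd d jp) τ (x + 0 + 1) (n + 1 - 0 - 1) m q
        rw [e2]; exact h2
    · rintro (h | ⟨⟨s, hs⟩, m, h3, m', h4, h5⟩)
      · refine ⟨d (τ x) p, by simp [lrd], (ih _ _ _).2 (Or.inl h)⟩
      · cases s with
        | zero =>
          have h3' : p = m := h3
          subst h3'
          refine ⟨m', ?_, ?_⟩
          · have h4' : jp (τ x) p m' = true := h4
            simp [lrd, h4']
          · have e2 : n + 1 - 0 - 1 = n := by omega
            have h5' : path (lrd d jp) τ (x + 0 + 1) (n + 1 - 0 - 1) m' q := h5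
            rw [e2] at h5'
            exact h5'
        | succ s =>
          refine ⟨d (τ x) p, by simp [lrd], (ih _ _ _).2 (Or.inr ⟨⟨s, by omega⟩, m, h3, m', ?_, ?_⟩)⟩
          · have : x + 1 + s = x + (s + 1) := by omega
            show jp (τ (x + 1 + s)) m m' = true
            rw [this]; exact h4
          · have e1 : x + 1 + s + 1 = x + (s + 1) + 1 := by omega
            have e2 : n - s - 1 = n + 1 - (s + 1) - 1 := by omega
            show path (lrd d jp) τ (x + 1 + s + 1) (n - s - 1) m' q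
            rw [e1, e2]; exact h5

omit [Finite P] in
/-- A path may contain a jump. -/
theorem path_jump {d : S → P → P} {jp : S → P → P → Bool} {τ : ℕ → S} {n x : ℕ} {p q m m' : P}
    {s : ℕ} (hs : s < n) (h1 : path (lrd d jp) τ x s p m) (h2 : jp (τ (x + s)) m m' = true)
    (h3 : path (lrd d jp) τ (x + s + 1) (n - s - 1) m' q) : path (lrd d jp) τ x n p q := by
  obtain ⟨r, rfl⟩ : ∃ r, n = s + (r + 1) := ⟨n - s - 1, by omega⟩
  have e : s + (r + 1) - s - 1 = r := by omega
  rw [e] at h3
  exact path_add.2 ⟨m, h1, m', by simp [lrd, h2], h3⟩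

omit [Finite P] in
theorem path_of_rj {d : S → P → P} {jp : S → P → P → Bool} {τ : ℕ → S} (i : ℕ) :
    ∀ (x n : ℕ) (p q : P), rj d jp τ i x n p q → path (lrd d jp) τ x n p q := by
  induction i with
  | zero => intro x n p q h; exact (path_iff n x p q).2 (Or.inl h)
  | succ i ih =>
    rintro x n p q (h | ⟨s, m, h1, m', h2, h3⟩)
    · exact ih _ _ _ _ h
    · exact path_jump s.isLt (ih _ _ _ _ h1) h2 (ih _ _ _ _ h3)

omit [Finite P] in
/-- The moves never lower the rank. -/
theorem st_path {d : S → P → P} {jp : S → P → P → Bool} {st : P → ℕ}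
    (hd : ∀ σ p, st (d σ p) = st p) (hj : ∀ σ p q, jp σ p q = true → st p < st q) {τ : ℕ → S}
    (n : ℕ) : ∀ (x : ℕ) (p q : P), path (lrd d jp) τ x n p q → st p ≤ st q := by
  induction n with
  | zero => intro x p q h; exact le_of_eq (congrArg st h)
  | succ n ih =>
    rintro x p q ⟨m, h1, h2⟩
    rw [lrd, Bool.or_eq_true, decide_eq_true_eq] at h1
    refine le_trans ?_ (ih _ _ _ h2)
    rcases h1 with rfl | h1
    · exact (hd _ _).ge
    · exact (hj _ _ _ h1).le

omit [Finite P] in
/-- The jump across the rank `θ`. -/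
theorem crossing {d : S → P → P} {jp : S → P → P → Bool} {st : P → ℕ}
    (hd : ∀ σ p, st (d σ p) = st p) {τ : ℕ → S} {θ : ℕ}
    (n : ℕ) : ∀ (x : ℕ) (p q : P), path (lrd d jp) τ x n p q → st p < θ → θ ≤ st q →
    ∃ s : Fin n, ∃ m, path (lrd d jp) τ x s.val p m ∧ st m < θ ∧ ∃ m',
      jp (τ (x + s.val)) m m' = true ∧ θ ≤ st m' ∧
      path (lrd d jp) τ (x + s.val + 1) (n - s.val - 1) m' q := by
  induction n with
  | zero =>
    intro x p q h h1 h2
    have h' : p = q := h
    subst h'
    omega
  | succ n ih =>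
    rintro x p q ⟨m, h1, h2⟩ h3 h4
    by_cases hm : st m < θ
    · obtain ⟨s, m1, h5, h6, m2, h7, h8, h9⟩ := ih (x + 1) m q h2 hm h4
      refine ⟨⟨s.val + 1, by omega⟩, m1, ⟨m, h1, h5⟩, h6, m2, ?_, h8, ?_⟩
      · have e : x + (s.val + 1) = x + 1 + s.val := by omega
        show jp (τ (x + (s.val + 1))) m1 m2 = true
        rw [e]; exact h7
      · have e1 : x + (s.val + 1) + 1 = x + 1 + s.val + 1 := by omega
        have e2 : n + 1 - (s.val + 1) - 1 = n - s.val - 1 := by omega
        show path (lrd d jp) τ (x + (s.val + 1) + 1) (n + 1 - (s.val + 1) - 1) m2 q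
        rw [e1, e2]; exact h9
    · rw [lrd, Bool.or_eq_true, decide_eq_true_eq] at h1
      rcases h1 with rfl | h1
      · rw [hd] at hm
        exact absurd h3 hm
      · refine ⟨⟨0, by omega⟩, p, rfl, h3, m, h1, by omega, ?_⟩
        have e2 : n + 1 - 0 - 1 = n := by omega
        show path (lrd d jp) τ (x + 0 + 1) (n + 1 - 0 - 1) m q
        rw [e2]; exact h2

omit [Finite P] in
theorem rj_of_path {d : S → P → P} {jp : S → P → P → Bool} {st : P → ℕ}
    (hd : ∀ σ p, st (d σ p) = st p) (hj : ∀ σ p q, jp σ p q = true → st p < st q) {τ : ℕ → S}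
    (i : ℕ) : ∀ (x n : ℕ) (p q : P), path (lrd d jp) τ x n p q → st q < st p + 2 ^ i →
    rj d jp τ i x n p q := by
  induction i with
  | zero =>
    intro x n p q h h1
    rcases (path_iff n x p q).1 h with h2 | ⟨s, m, h3, m', h4, h5⟩
    · exact h2
    · exfalso
      have h6 : path (lrd d jp) τ x s.val p m := (path_iff _ _ _ _).2 (Or.inl h3)
      have h7 := st_path hd hj _ _ _ _ h6
      have h8 := hj _ _ _ h4
      have h9 := st_path hd hj _ _ _ _ h5
      rw [pow_zero] at h1
      omega
  | succ i ih =>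
    intro x n p q h h1
    rw [pow_succ] at h1
    by_cases h2 : st q < st p + 2 ^ i
    · exact Or.inl (ih _ _ _ _ h h2)
    · have hpos : 0 < 2 ^ i := Nat.two_pow_pos i
      obtain ⟨s, m, h3, h4, m', h5, h6, h7⟩ := crossing hd (θ := st p + 2 ^ i) n x p q h
        (by omega) (by omega)
      exact Or.inr ⟨s, m, ih _ _ _ _ h3 h4, m', h5, ih _ _ _ _ h7 (by omega)⟩

/-- `svp` decides reachability, if there are at most `2 ^ i` ranks. -/
theorem decides_path {l : List P} (hl : ∀ m, m ∈ l) {d : S → P → P} {jp : S → P → P → Bool}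
    {st : P → ℕ} {i : ℕ} (hk : ∀ p, st p < 2 ^ i) (hd : ∀ σ p, st (d σ p) = st p)
    (hj : ∀ σ p q, jp σ p q = true → st p < st q) {τ : ℕ → S} {hi : ℕ}
    (n x : ℕ) (p q : P) (hx : 1 ≤ x) (hxn : x + n ≤ hi + 1) :
    Decides τ hi (svp l d jp i n p q) x x (path (lrd d jp) τ x n p q) := by
  refine (decides_svp hl i n x p q hx hxn).congr ⟨path_of_rj _ _ _ _ _, fun h => ?_⟩
  refine rj_of_path hd hj i x n p q h ?_
  have := hk q
  omega

theorem arithR (B n s Z c1 c2 : ℕ) (hB : 1 ≤ B) (hn : n ≤ 2 * B) (hs : s ≤ n)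
    (hZ : B ≤ Z) (h1 : c1 ≤ Z) (h2 : c2 ≤ B * (6 + Z)) :
    c1 + (s + (c2 + 2 * s)) ≤ 14 * (B * Z) := by
  have e1 : s ≤ 2 * B := hs.trans hn
  have e3 : B ≤ B * Z := Nat.le_mul_of_pos_right B (by omega)
  have e5 : Z ≤ B * Z := Nat.le_mul_of_pos_left _ (by omega)
  have e6 : B * (6 + Z) = 6 * B + B * Z := by ring
  rw [e6] at h2
  omega

theorem arithR2 (B n Z c1 c2 : ℕ) (hB : 1 ≤ B) (hn : n ≤ 2 * B)
    (h1 : c1 ≤ Z) (h2 : c2 ≤ n * (B * (14 * (B * Z)))) :
    c1 + (0 + c2) ≤ 64 * B ^ 4 * Z := by
  have e1 : n * (B * (14 * (B * Z))) ≤ (2 * B) * (B * (14 * (B * Z))) :=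
    Nat.mul_le_mul_right _ hn
  have e2 : (2 * B) * (B * (14 * (B * Z))) = 28 * (B ^ 3 * Z) := by ring
  have e4 : B ^ 3 ≤ B ^ 4 := Nat.pow_le_pow_right hB (by omega)
  have e5 : B ^ 3 * Z ≤ B ^ 4 * Z := Nat.mul_le_mul_right _ e4
  have e6 : Z ≤ B ^ 4 * Z := Nat.le_mul_of_pos_left _ (Nat.pow_pos hB)
  have e8 : 64 * B ^ 4 * Z = 64 * (B ^ 4 * Z) := by ring
  rw [e8]
  omega

theorem cnt_svp {l : List P} {B : ℕ} (hl : l.length = B) (hP : Nat.card P = B)
    {d : S → P → P} {jp : S → P → P → Bool}
    (j : ℕ) : ∀ (n : ℕ) (p q : P), n ≤ 2 * B →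
    (svp l d jp j n p q).cnt ≤ (64 * B ^ 4) ^ (j + 1) := by
  have hB4 : ∀ p : P, 1 ≤ B := fun p => by
    have : Nonempty P := ⟨p⟩
    rw [← hP]
    exact Nat.card_pos
  have hZ : ∀ p : P, ∀ j : ℕ, B ≤ (64 * B ^ 4) ^ (j + 1) := by
    intro p j
    have hB := hB4 p
    have h1 : B ≤ B ^ 4 := by
      calc B = B ^ 1 := (pow_one B).symm
        _ ≤ B ^ 4 := Nat.pow_le_pow_right hB (by omega)
    calc B ≤ 64 * B ^ 4 := by omega
      _ = (64 * B ^ 4) ^ 1 := (pow_one _).symm
      _ ≤ _ := Nat.pow_le_pow_right (by omega) (by omega)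
  induction j with
  | zero =>
    intro n p q hn
    have hB := hB4 p
    have h1 := cnt_drun (d := d) n (p := p) (q := q)
    rw [hP] at h1
    have e3 : n * B ≤ (2 * B) * B := Nat.mul_le_mul_right _ hn
    have e4 : B ≤ B ^ 4 := by
      calc B = B ^ 1 := (pow_one B).symm
        _ ≤ B ^ 4 := Nat.pow_le_pow_right hB (by omega)
    have e6 : B * B ≤ B ^ 4 := by
      calc B * B = B ^ 2 := by ring
        _ ≤ B ^ 4 := Nat.pow_le_pow_right hB (by omega)
    have e7 : (2 * B) * B = 2 * (B * B) := by ring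
    simp only [svp, Nat.zero_add, pow_one]
    omega
  | succ j ih =>
    intro n p q hn
    have hB := hB4 p
    simp only [svp, cnt]
    have h1 := ih n p q hn
    have h2 : (orL (List.finRange n) (fun s => orL l (fun m => ite (svp l d jp j s.val p m)
        (mvs true s.val (thenLeft (orL l (fun m' => ite (test (fun σ => jp σ m m'))
          (if n - s.val - 1 = 0 then ret (decide (m' = q)) else
            mvs true 1 (thenLeft (svp l d jp j (n - s.val - 1) m' q) 1)) (ret false))) s.val))
        (ret false)))).cnt ≤ n * (B * (14 * (B * (64 * B ^ 4) ^ (j + 1)))) := by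
      refine (cnt_orL _ _ (B * (14 * (B * (64 * B ^ 4) ^ (j + 1)))) (fun s => ?_)).trans
        (by rw [List.length_finRange])
      refine (cnt_orL _ _ (14 * (B * (64 * B ^ 4) ^ (j + 1))) (fun m => ?_)).trans
        (by rw [hl])
      have hs := s.isLt
      have h3 := ih s.val p m (by omega)
      have h4 : (orL l (fun m' => ite (test (fun σ => jp σ m m'))
          (if n - s.val - 1 = 0 then ret (decide (m' = q)) else
            mvs true 1 (thenLeft (svp l d jp j (n - s.val - 1) m' q) 1)) (ret false))).cnt ≤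
          B * (6 + (64 * B ^ 4) ^ (j + 1)) := by
        refine (cnt_orL _ _ (6 + (64 * B ^ 4) ^ (j + 1)) (fun m' => ?_)).trans (by rw [hl])
        by_cases h0 : n - s.val - 1 = 0
        · simp only [if_pos h0, cnt, cnt_test]
          omega
        · have h5 := ih (n - s.val - 1) m' q (by omega)
          simp only [if_neg h0, cnt, cnt_test, cnt_mvs, cnt_thenLeft]
          omega
      simp only [cnt, cnt_mvs, cnt_thenLeft]
      have h6 := arithR B n s.val ((64 * B ^ 4) ^ (j + 1)) _ _ hB hn hs.le (hZ p j) h3 h4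
      omega
    have h7 := arithR2 B n ((64 * B ^ 4) ^ (j + 1)) _ _ hB hn h1 h2
    have h8 : (64 * B ^ 4) ^ (j + 1 + 1) = 64 * B ^ 4 * (64 * B ^ 4) ^ (j + 1) := by
      rw [pow_succ _ (j + 1), Nat.mul_comm]
    rw [h8]
    exact h7

end rank

section block

/-- Test the cell `m` cells to the right of the head, and return. -/
def chk (bit : S → Bool) (m : ℕ) : Cmd S := mvs true m (thenLeft (test bit) m)

theorem cnt_chk (bit : S → Bool) (m : ℕ) : (chk bit m).cnt = 3 * m + 3 := by
  simp only [chk, cnt_mvs, cnt_thenLeft, cnt_test]; omega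

theorem decides_chk {τ : ℕ → S} {hi x m : ℕ} (bit : S → Bool) (hx : 1 ≤ x) (hm : x + m ≤ hi) :
    Decides τ hi (chk bit m) x x (bit (τ (x + m)) = true) := by
  apply decides_mvs_right (by omega)
  apply decides_thenLeft _ hm
  exact decides_test bit (by omega) hm

/-- Is `q` reached from the set of states that is marked in the `B` cells starting with the
scanned one?  `R` decides reachability from a given state. -/
def memq (B : ℕ) (bit : S → Bool) (R : ℕ → Fin B → Fin B → Cmd S) (n : ℕ) (q : Fin B) : Cmd S :=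
  orL (List.finRange B) (fun m => ite (chk bit m.val) (R n m q) (ret false))

theorem decides_memq {B : ℕ} {bit : S → Bool} {R : ℕ → Fin B → Fin B → Cmd S} {n : ℕ}
    {q : Fin B} {τ : ℕ → S} {hi x : ℕ} {φ : Fin B → Prop}
    (hR : ∀ m, Decides τ hi (R n m q) x x (φ m)) (hx : 1 ≤ x)
    (hB : x + B ≤ hi + 1) :
    Decides τ hi (memq B bit R n q) x x (∃ m : Fin B, bit (τ (x + m.val)) = true ∧ φ m) := by
  have key : ∀ m : Fin B, Decides τ hi (ite (chk bit m.val) (R n m q) (ret false)) x x
      (bit (τ (x + m.val)) = true ∧ φ m) := by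
    intro m
    have hm := m.isLt
    exact (decides_ite (χ := False) (ψ := φ m) (decides_chk bit hx (by omega))
      (fun _ => hR m) (fun _ => (decides_ret _ _ _ _).congr (by simp))).congr (by tauto)
  refine (decides_orL _ _ _ key).congr ?_
  constructor
  · rintro ⟨m, _, h1⟩; exact ⟨m, h1⟩
  · rintro ⟨m, h1⟩; exact ⟨m, List.mem_finRange m, h1⟩

theorem cnt_memq {B : ℕ} {bit : S → Bool} {R : ℕ → Fin B → Fin B → Cmd S} {n : ℕ}
    {q : Fin B} {Z : ℕ} (hR : ∀ m, (R n m q).cnt ≤ 3 * Z) :
    (memq B bit R n q).cnt ≤ B * (3 * B + 3 * Z) := by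
  refine (cnt_orL _ _ (3 * B + 3 * Z) ?_).trans (by rw [List.length_finRange])
  intro m
  have hm := m.isLt
  have h1 := hR m
  simp only [cnt, cnt_chk]
  omega

end block

end Pool.Agent.TH588.KG
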