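import Mathlib
import Pool.Agent.H630R2.LA.Machine
import Pool.Agent.TH588.KG.Reach

set_option autoImplicit false

/-!
The programs of the deterministic 1-limited automaton of `Pool/Agent/H630R2/LA/Machine.lean`, with
an arbitrary family of programs `R n p q` for the reachability between the states `p` and `q` on
`n` cells.
-/

namespace Pool.Agent.TH588.KG

open Relation Cmd
open Pool.Agent.H630R2.LA (Sym WS ix lrel bitS isLm nr Ann link bit_ann mem_block path)

section defs

variable {A : Type} (h : ℕ) (R : ℕ → Fin (2 ^ h) → Fin (2 ^ h) → Cmd (Sym (WS A)))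
  (p0 : Fin (2 ^ h)) (facc : Fin (2 ^ h) → Bool)

/-- Compute the bit of the next cell; the head is on the last visited cell, which has index `k`
when the cells are counted from the beginning of the block (`0` for the last cell of the
previous block). -/
def mainP (k : Fin (2 ^ h)) : Cmd (Sym (WS A)) :=
  mvs false k.val (ite (act isLm isLm)
    (mvs true k.val (ret (decide (k = p0))))
    (mvs false (2 ^ h - 2) (thenRight (memq (2 ^ h) bitS R (2 ^ h) k) (2 ^ h + k.val))))

/-- The same, starting one cell further left. -/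
def nextP (k : Fin (2 ^ h)) : Cmd (Sym (WS A)) := mvs true 1 (mainP h R p0 k)

/-- Decide acceptance; the head is on the last letter. -/
def finP (k : Fin (2 ^ h)) : Cmd (Sym (WS A)) :=
  mvs false k.val (ite (act isLm isLm)
    (thenRight (orL (List.finRange (2 ^ h)) (fun f => if facc f = true then
      R k.val p0 f else ret false)) k.val)
    (mvs false (2 ^ h - 2) (thenRight (orL (List.finRange (2 ^ h)) (fun f => if facc f = true then
      memq (2 ^ h) bitS R (2 ^ h + k.val) f else ret false))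
      (2 ^ h + k.val))))

/-- The programs `R` decide reachability on visited cells. -/
def GoodR (rel : A → Fin (2 ^ h) → Fin (2 ^ h) → Bool) : Prop :=
  ∀ (τ : ℕ → Sym (WS A)) (hi n x : ℕ) (p q : Fin (2 ^ h)), n ≤ 2 ^ (h + 1) → 1 ≤ x →
    x + n ≤ hi + 1 → (∀ i < n, ∃ a b, τ (x + i) = .sym (.mark a b)) →
    Decides τ hi (R n p q) x x (path (lrel h rel) τ x n p q)

end defs

section correctness

variable {A : Type} {h : ℕ} {R : ℕ → Fin (2 ^ h) → Fin (2 ^ h) → Cmd (Sym (WS A))}
  {rel : A → Fin (2 ^ h) → Fin (2 ^ h) → Bool} {p0 : Fin (2 ^ h)}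
  {facc : Fin (2 ^ h) → Bool}

theorem marks {w : List A} {τ : ℕ → Sym (WS A)} {y x n : ℕ} (hA : Ann h rel p0 w τ y)
    (hx : 1 ≤ x) (hn : x + n ≤ y + 1) : ∀ i < n, ∃ a b, τ (x + i) = .sym (.mark a b) := by
  intro i hi
  obtain ⟨a, b, _, h1, _⟩ := hA.2 (x + i - 1) (by omega)
  have : x + i - 1 + 1 = x + i := by omega
  rw [this] at h1
  exact ⟨a, b, h1⟩

theorem decides_lm_true {τ : ℕ → Sym (WS A)} {hi : ℕ} (h0 : τ 0 = .lm) :
    Decides τ hi (act isLm isLm) 0 1 True := by
  refine ⟨true, run_act _ _ _ (Nat.zero_le _) ?_ ?_ ?_, by simp⟩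
  · rw [h0]; rfl
  · intro _; rfl
  · rw [h0]; intro h; exact absurd h (by simp [isLm])

theorem decides_lm_false {τ : ℕ → Sym (WS A)} {hi x : ℕ} {a : A} {b : Bool}
    (h0 : τ (x + 1) = .sym (.mark a b)) (hx : x + 1 ≤ hi) :
    Decides τ hi (act isLm isLm) (x + 1) x False := by
  refine ⟨false, run_act _ _ _ hx ?_ ?_ ?_, by simp⟩
  · rw [h0]; rfl
  · rw [h0]; intro h; exact absurd h (by simp [isLm])
  · intro _; rfl

theorem decides_main (hR : GoodR h R rel) (hh : 1 ≤ h) {w : List A} {τ : ℕ → Sym (WS A)}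
    {y hi j : ℕ} {k : Fin (2 ^ h)} (hA : Ann h rel p0 w τ y) (hy : y = j * 2 ^ h + k.val)
    (hhi : y ≤ hi) :
    Decides τ hi (mainP h R p0 k) y (y + 1) (nr h rel p0 w (j * 2 ^ h) k) := by
  have hB : 2 ≤ 2 ^ h := by
    calc 2 = 2 ^ 1 := rfl
      _ ≤ 2 ^ h := Nat.pow_le_pow_right (by omega) hh
  have hpow : 2 ^ (h + 1) = 2 ^ h + 2 ^ h := by ring
  have hk := k.isLt
  rw [hy]
  apply decides_mvs_left (by omega)
  rcases Nat.eq_zero_or_pos j with hj | hj
  · subst hj
    have hz : 0 * 2 ^ h = 0 := Nat.zero_mul _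
    simp only [hz, Nat.zero_add]
    refine (decides_ite (φ := True) (ψ := nr h rel p0 w 0 k) (χ := False)
      (decides_lm_true hA.1) (fun _ => ?_) (fun h => absurd trivial h)).congr (by tauto)
    have h1 : k.val + 1 = 1 + k.val := by omega
    rw [h1]
    apply decides_mvs_right (by omega)
    exact (decides_ret _ _ _ _).congr (by simp [nr])
  · obtain ⟨j', rfl⟩ : ∃ j', j = j' + 1 := ⟨j - 1, by omega⟩
    have hz : (j' + 1) * 2 ^ h = j' * 2 ^ h + 2 ^ h := by ring
    have hpos : (j' + 1) * 2 ^ h = (j' * 2 ^ h + 2 ^ h - 1) + 1 := by omega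
    obtain ⟨a, b, ha, hτ, -⟩ := hA.2 (j' * 2 ^ h + 2 ^ h - 1) (by omega)
    refine (decides_ite (φ := False) (ψ := True) (χ := nr h rel p0 w ((j' + 1) * 2 ^ h) k)
      (y := j' * 2 ^ h + 2 ^ h - 1) ?_ (fun h => absurd h (by simp)) (fun _ => ?_)).congr (by tauto)
    · rw [hpos]
      exact decides_lm_false hτ (by omega)
    · have h1 : j' * 2 ^ h + 2 ^ h - 1 = j' * 2 ^ h + 1 + (2 ^ h - 2) := by omega
      rw [h1]
      apply decides_mvs_left (by omega)
      have h2 : (j' + 1) * 2 ^ h + k.val + 1 = j' * 2 ^ h + 1 + (2 ^ h + k.val) := by omega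
      rw [h2]
      apply decides_thenRight _ (by omega)
      refine (decides_memq (φ := fun m => path (lrel h rel) τ (j' * 2 ^ h + 1) (2 ^ h) m k)
        (fun m => hR _ _ _ _ _ _ (by omega) (by omega) (by omega)
          (marks hA (by omega) (by omega))) (by omega) (by omega)).congr ?_
      rw [mem_block hA j' (2 ^ h) k (by omega) (by omega), ← hz]

theorem decides_fin (hR : GoodR h R rel) (hh : 1 ≤ h) {w : List A} {τ : ℕ → Sym (WS A)}
    {y hi j : ℕ} {k : Fin (2 ^ h)} (hA : Ann h rel p0 w τ y) (hy : y = j * 2 ^ h + k.val)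
    (hhi : y ≤ hi) :
    Decides τ hi (finP h R p0 facc k) y (y + 1) (∃ f, facc f = true ∧ nr h rel p0 w y f) := by
  have hB : 2 ≤ 2 ^ h := by
    calc 2 = 2 ^ 1 := rfl
      _ ≤ 2 ^ h := Nat.pow_le_pow_right (by omega) hh
  have hk := k.isLt
  have hpow : 2 ^ (h + 1) = 2 ^ h + 2 ^ h := by ring
  rw [hy]
  apply decides_mvs_left (by omega)
  rcases Nat.eq_zero_or_pos j with hj | hj
  · subst hj
    have hz : 0 * 2 ^ h = 0 := Nat.zero_mul _
    simp only [hz, Nat.zero_add] at hy ⊢
    refine (decides_ite (φ := True) (ψ := ∃ f, facc f = true ∧ nr h rel p0 w k.val f) (χ := False)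
      (decides_lm_true hA.1) (fun _ => ?_) (fun h => absurd trivial h)).congr (by simp)
    have h1 : k.val + 1 = 1 + k.val := by omega
    rw [h1]
    apply decides_thenRight _ (by omega)
    refine (decides_orL _ _ (fun f => facc f = true ∧ nr h rel p0 w k.val f) ?_).congr ?_
    · intro f
      by_cases hf : facc f = true
      · simp only [hf, if_true, true_and]
        refine (hR _ _ _ _ _ _ (by omega) le_rfl (by omega)
          (marks hA (by omega) (by omega))).congr ?_
        have h2 := link hA k.val 0 f (by omega)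
        simp only [Nat.zero_add] at h2
        rw [← h2]
        simp [nr]
      · simp only [hf]
        exact (decides_ret _ _ _ _).congr (by simp)
    · constructor
      · rintro ⟨m, _, h1⟩; exact ⟨m, h1⟩
      · rintro ⟨m, h1⟩; exact ⟨m, List.mem_finRange m, h1⟩
  · obtain ⟨j', rfl⟩ : ∃ j', j = j' + 1 := ⟨j - 1, by omega⟩
    have hz : (j' + 1) * 2 ^ h = j' * 2 ^ h + 2 ^ h := by ring
    have hpos : (j' + 1) * 2 ^ h = (j' * 2 ^ h + 2 ^ h - 1) + 1 := by omega
    obtain ⟨a, b, ha, hτ, -⟩ := hA.2 (j' * 2 ^ h + 2 ^ h - 1) (by omega)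
    refine (decides_ite (φ := False) (ψ := True)
      (χ := ∃ f, facc f = true ∧ nr h rel p0 w ((j' + 1) * 2 ^ h + k.val) f)
      (y := j' * 2 ^ h + 2 ^ h - 1) ?_ (fun h => absurd h (by simp)) (fun _ => ?_)).congr (by tauto)
    · rw [hpos]
      exact decides_lm_false hτ (by omega)
    · have h1 : j' * 2 ^ h + 2 ^ h - 1 = j' * 2 ^ h + 1 + (2 ^ h - 2) := by omega
      rw [h1]
      apply decides_mvs_left (by omega)
      have h2 : (j' + 1) * 2 ^ h + k.val + 1 = j' * 2 ^ h + 1 + (2 ^ h + k.val) := by omega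
      rw [h2]
      apply decides_thenRight _ (by omega)
      refine (decides_orL _ _ (fun f => facc f = true ∧
        nr h rel p0 w ((j' + 1) * 2 ^ h + k.val) f) ?_).congr ?_
      · intro f
        by_cases hf : facc f = true
        · simp only [hf, if_true, true_and]
          refine (decides_memq
            (φ := fun m => path (lrel h rel) τ (j' * 2 ^ h + 1) (2 ^ h + k.val) m f)
            (fun m => hR _ _ _ _ _ _ (by omega) (by omega) (by omega)
              (marks hA (by omega) (by omega))) (by omega) (by omega)).congr ?_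
          rw [mem_block hA j' (2 ^ h + k.val) f (by omega) (by omega)]
          have h3 : j' * 2 ^ h + (2 ^ h + k.val) = (j' + 1) * 2 ^ h + k.val := by omega
          rw [h3]
        · simp only [hf]
          exact (decides_ret _ _ _ _).congr (by simp)
      · constructor
        · rintro ⟨m, _, h1⟩; exact ⟨m, h1⟩
        · rintro ⟨m, h1⟩; exact ⟨m, List.mem_finRange m, h1⟩

end correctness

end Pool.Agent.TH588.KG
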