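import Mathlib
import Pool.Agent.H630R2.LA.Upper
import Pool.Agent.TH588.KG.Det

set_option autoImplicit false

/-!
The size of the deterministic 1-limited automaton.
-/

namespace Pool.Agent.TH588.KG

open Relation Cmd
open Pool.Agent.H630R2.LA (Sym WS bitS LimAut arith1 arith2 arith3 card_WS numTrans_le)

section card

variable {A : Type} {h : ℕ} {R : ℕ → Fin (2 ^ h) → Fin (2 ^ h) → Cmd (Sym (WS A))}
  {p0 : Fin (2 ^ h)} {facc : Fin (2 ^ h) → Bool} {Z : ℕ}

theorem cnt_mainP (hZ : 2 ^ h ≤ Z) (hc : ∀ n p q, n ≤ 2 ^ (h + 1) → (R n p q).cnt ≤ 3 * Z)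
    (k : Fin (2 ^ h)) : (mainP h R p0 k).cnt ≤ 13 * 2 ^ h * Z := by
  have hB : 1 ≤ 2 ^ h := Nat.one_le_two_pow
  have hpow : 2 ^ (h + 1) = 2 ^ h + 2 ^ h := by ring
  have hk := k.isLt
  have h1 := cnt_memq (B := 2 ^ h) (bit := bitS) (R := R) (n := 2 ^ h) (q := k) (Z := Z)
    (fun m => hc _ _ _ (by omega))
  simp only [mainP, cnt_mvs, cnt, cnt_thenRight, cnt_act]
  exact arith1 _ _ _ _ hB hk hZ h1

theorem cnt_finP (hZ : 2 ^ h ≤ Z) (hc : ∀ n p q, n ≤ 2 ^ (h + 1) → (R n p q).cnt ≤ 3 * Z)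
    (k : Fin (2 ^ h)) : (finP h R p0 facc k).cnt ≤ 18 * (2 ^ h * 2 ^ h) * Z := by
  have hB : 1 ≤ 2 ^ h := Nat.one_le_two_pow
  have hpow : 2 ^ (h + 1) = 2 ^ h + 2 ^ h := by ring
  have hk := k.isLt
  have hl : (List.finRange (2 ^ h)).length = 2 ^ h := List.length_finRange
  have h1 : (orL (List.finRange (2 ^ h)) (fun f => if facc f = true then
      R k.val p0 f else ret false)).cnt ≤ 2 ^ h * (3 * Z) := by
    refine (cnt_orL _ _ (3 * Z) ?_).trans (by rw [hl])
    intro f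
    by_cases hf : facc f = true
    · simp only [hf, if_true]
      exact hc _ _ _ (by omega)
    · simp only [hf]
      exact Nat.zero_le _
  have h2 : (orL (List.finRange (2 ^ h)) (fun f => if facc f = true then
      memq (2 ^ h) bitS R (2 ^ h + k.val) f else ret false)).cnt ≤
      2 ^ h * (2 ^ h * (3 * 2 ^ h + 3 * Z)) := by
    refine (cnt_orL _ _ (2 ^ h * (3 * 2 ^ h + 3 * Z)) ?_).trans (by rw [hl])
    intro f
    by_cases hf : facc f = true
    · simp only [hf, if_true]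
      exact cnt_memq (fun m => hc _ _ _ (by omega))
    · simp only [hf]
      exact Nat.zero_le _
  simp only [finP, cnt_mvs, cnt, cnt_thenRight, cnt_act]
  exact arith2 _ _ _ _ _ hB hk hZ h1 h2

theorem card_QS (hZ : 2 ^ h ≤ Z) (hc : ∀ n p q, n ≤ 2 ^ (h + 1) → (R n p q).cnt ≤ 3 * Z) :
    Nat.card (QS h R p0 facc) ≤ 64 * (2 ^ h * (2 ^ h * (2 ^ h * Z))) := by
  have hB : 1 ≤ 2 ^ h := Nat.one_le_two_pow
  have e : Nat.card (QS h R p0 facc) = 2 ^ h * 2 +
      ((∑ k : Fin (2 ^ h), (nextP h R p0 k).cnt) +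
        ((∑ k : Fin (2 ^ h), (finP h R p0 facc k).cnt) + 2)) := by
    unfold QS
    rw [Nat.card_sum, Nat.card_sum, Nat.card_sum, Nat.card_prod, Nat.card_sigma, Nat.card_sigma]
    simp only [card_St, Nat.card_eq_fintype_card, Fintype.card_fin, Fintype.card_bool]
  have s1 : ∑ k : Fin (2 ^ h), (nextP h R p0 k).cnt ≤ 2 ^ h * (14 * 2 ^ h * Z) := by
    have : ∑ k : Fin (2 ^ h), (nextP h R p0 k).cnt ≤
        ∑ _k : Fin (2 ^ h), (14 * 2 ^ h * Z) := by
      apply Finset.sum_le_sum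
      intro k _
      have h1 := cnt_mainP (p0 := p0) hZ hc k
      simp only [nextP, cnt_mvs]
      have h2 : 1 ≤ 2 ^ h * Z := Nat.mul_pos hB (lt_of_lt_of_le hB hZ)
      have h3 : 13 * 2 ^ h * Z = 13 * (2 ^ h * Z) := by ring
      have h4 : 14 * 2 ^ h * Z = 14 * (2 ^ h * Z) := by ring
      omega
    refine this.trans ?_
    simp
  have s2 : ∑ k : Fin (2 ^ h), (finP h R p0 facc k).cnt ≤
      2 ^ h * (18 * (2 ^ h * 2 ^ h) * Z) := by
    have : ∑ k : Fin (2 ^ h), (finP h R p0 facc k).cnt ≤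
        ∑ _k : Fin (2 ^ h), (18 * (2 ^ h * 2 ^ h) * Z) := by
      apply Finset.sum_le_sum
      intro k _
      exact cnt_finP hZ hc k
    refine this.trans ?_
    simp
  rw [e]
  exact arith3 _ _ _ _ hB hZ s1 s2

theorem size_detM [Finite A] (hZ : 2 ^ h ≤ Z)
    (hc : ∀ n p q, n ≤ 2 ^ (h + 1) → (R n p q).cnt ≤ 3 * Z) :
    (detM h R p0 facc : LimAut A).size ≤
      32 * (64 * (2 ^ h * (2 ^ h * (2 ^ h * Z)))) * (Nat.card A + 1) := by
  have h1 : (detM h R p0 facc : LimAut A).numTrans ≤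
      Nat.card (QS h R p0 facc) * (Nat.card (WS A) + 2) := numTrans_le _ (detM_det h R p0 facc)
  have h2 := card_QS (p0 := p0) (facc := facc) hZ hc
  have h3 := card_WS A
  have hpos : 1 ≤ Nat.card (QS h R p0 facc) := by
    have := finite_QS h R p0 facc
    have : Nonempty (QS h R p0 facc) := ⟨enQ h R p0 facc true⟩
    exact Nat.card_pos
  have hsize : (detM h R p0 facc : LimAut A).size = Nat.card (QS h R p0 facc) + Nat.card A +
      (Nat.card (WS A) + 2) + 5 * (detM h R p0 facc : LimAut A).numTrans + 1 +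
      ({enQ h R p0 facc true} : Set (QS h R p0 facc)).ncard := rfl
  rw [hsize, Set.ncard_singleton, h3]
  rw [h3] at h1
  generalize (detM h R p0 facc : LimAut A).numTrans = T at *
  generalize Nat.card (QS h R p0 facc) = q at *
  generalize 64 * (2 ^ h * (2 ^ h * (2 ^ h * Z))) = Y at *
  generalize Nat.card A = a at *
  have h5 : q * (3 * a + 1 + 2) = 3 * (q * (a + 1)) := by ring
  rw [h5] at h1
  have h6 : a + 1 ≤ q * (a + 1) := Nat.le_mul_of_pos_left _ hpos
  have h7 : q ≤ q * (a + 1) := Nat.le_mul_of_pos_right _ (by omega)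
  have h8 : q * (a + 1) ≤ Y * (a + 1) := Nat.mul_le_mul_right _ h2
  have h9 : 32 * Y * (a + 1) = 32 * (Y * (a + 1)) := by ring
  rw [h9]
  omega

end card

section staged

variable {A : Type} {h : ℕ} (d : A → Fin (2 ^ h) → Fin (2 ^ h))
  (jp : A → Fin (2 ^ h) → Fin (2 ^ h) → Bool)

/-- The deterministic move on a cell of the deterministic 1-limited automaton. -/
def dS (σ : Sym (WS A)) (p : Fin (2 ^ h)) : Fin (2 ^ h) := match σ with
  | .sym (.mark a _) => d a p
  | _ => p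

/-- The jumps on a cell of the deterministic 1-limited automaton. -/
def jS (σ : Sym (WS A)) (p q : Fin (2 ^ h)) : Bool := match σ with
  | .sym (.mark a _) => jp a p q
  | _ => false

/-- The programs for reachability. -/
def RR (k : ℕ) (n : ℕ) (p q : Fin (2 ^ h)) : Cmd (Sym (WS A)) :=
  svp (List.finRange (2 ^ h)) (dS d) (jS jp) k n p q

variable {d jp}

theorem path_congr {S P : Type} {lr lr' : S → P → P → Bool} {τ : ℕ → S} (n : ℕ) :
    ∀ (x : ℕ) (p q : P), (∀ i < n, lr (τ (x + i)) = lr' (τ (x + i))) →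
    (Pool.Agent.H630R2.LA.path lr τ x n p q ↔ Pool.Agent.H630R2.LA.path lr' τ x n p q) := by
  induction n with
  | zero => intro x p q _; exact Iff.rfl
  | succ n ih =>
    intro x p q hx
    simp only [Pool.Agent.H630R2.LA.path]
    have h0 := hx 0 (by omega)
    rw [Nat.add_zero] at h0
    rw [h0]
    refine exists_congr (fun m => and_congr_right (fun _ => ih _ _ _ (fun i hi => ?_)))
    have := hx (i + 1) (by omega)
    have e : x + (i + 1) = x + 1 + i := by omega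
    rw [e] at this
    exact this

theorem goodR {st : Fin (2 ^ h) → ℕ} {i : ℕ} (hk : ∀ p, st p < 2 ^ i)
    (hd : ∀ a p, st (d a p) = st p) (hj : ∀ a p q, jp a p q = true → st p < st q) :
    GoodR h (RR (A := A) d jp i) (lrd d jp) := by
  intro τ hi n x p q hn hx hxn hm
  refine (decides_path (st := st) (i := i) (fun m => List.mem_finRange m) hk ?_ ?_ n x p q
    hx hxn).congr ?_
  · intro σ p
    unfold dS
    split
    · exact hd _ _
    · rfl
  · intro σ p q h1
    unfold jS at h1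
    split at h1
    · exact hj _ _ _ h1
    · exact absurd h1 (by simp)
  · refine path_congr n x p q (fun i hi => ?_)
    obtain ⟨a, b, hab⟩ := hm i hi
    rw [hab]
    rfl

theorem cnt_RR (k : ℕ) (n : ℕ) (p q : Fin (2 ^ h)) (hn : n ≤ 2 ^ (h + 1)) :
    (RR (A := A) d jp k n p q).cnt ≤ 3 * (64 * (2 ^ h) ^ 4) ^ (k + 1) := by
  have h1 := cnt_svp (l := List.finRange (2 ^ h)) (B := 2 ^ h) List.length_finRange
    (by rw [Nat.card_eq_fintype_card, Fintype.card_fin]) (d := dS d) (jp := jS jp) k n p q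
    (by rw [pow_succ] at hn; omega)
  unfold RR
  omega

theorem le_ZZ (h k : ℕ) : 2 ^ h ≤ (64 * (2 ^ h) ^ 4) ^ (k + 1) := by
  have hB : 1 ≤ 2 ^ h := Nat.one_le_two_pow
  have h1 : 2 ^ h ≤ (2 ^ h) ^ 4 := by
    calc 2 ^ h = (2 ^ h) ^ 1 := (pow_one _).symm
      _ ≤ (2 ^ h) ^ 4 := Nat.pow_le_pow_right hB (by omega)
  calc 2 ^ h ≤ 64 * (2 ^ h) ^ 4 := by omega
    _ = (64 * (2 ^ h) ^ 4) ^ 1 := (pow_one _).symm
    _ ≤ _ := Nat.pow_le_pow_right (by omega) (by omega)

theorem size_final [Finite A] {p0 : Fin (2 ^ h)} {facc : Fin (2 ^ h) → Bool} (k : ℕ) :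
    (detM h (RR (A := A) d jp k) p0 facc : LimAut A).size ≤
      2 ^ (11 + 3 * h + (4 * h + 6) * (k + 1)) * (Nat.card A + 1) := by
  have h1 := size_detM (A := A) (R := RR d jp k) (p0 := p0) (facc := facc)
    (le_ZZ h k) (cnt_RR k)
  refine h1.trans (le_of_eq ?_)
  have e1 : 64 * (2 ^ h) ^ 4 = 2 ^ (4 * h + 6) := by
    rw [pow_add, ← pow_mul, Nat.mul_comm h 4]
    norm_num
    ring
  rw [e1, ← pow_mul]
  have e2 : 32 * (64 * (2 ^ h * (2 ^ h * (2 ^ h * 2 ^ ((4 * h + 6) * (k + 1)))))) =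
      2 ^ (11 + 3 * h + (4 * h + 6) * (k + 1)) := by
    have : 11 + 3 * h + (4 * h + 6) * (k + 1) = 5 + (6 + (h + (h + (h + (4 * h + 6) * (k + 1))))) := by
      ring
    rw [this, pow_add 2 5, pow_add 2 6, pow_add 2 h, pow_add 2 h, pow_add 2 h]
    norm_num
  rw [e2]

end staged

end Pool.Agent.TH588.KG
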