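import Mathlib
import Pool.Agent.TH588.KG.Upper

set_option autoImplicit false

/-!
The set automaton of a 1-limited automaton with ranked states: its states are a rank, the table of
the frozen part of the tape and a set of states.  It is deterministic, except for the moves that
raise the rank.
-/

namespace Pool.Agent.TH588.KG

open Relation
open Pool.Agent.H630R2.LA (Sym LimAut Cfg Step init fz Fr Tab ext nstep nreach initTape
  mem_language nr nr_zero lift Tab_zero Tab_succ)

variable {A : Type}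

/-- Two computations on the same input which are going to visit a cell for the first time, with the
same tape and in states of the same rank, have no choice what to write in the cell, as long as they
do not raise the rank. -/
def NoChoice {R : Type} (strict : Prop) (M : LimAut A) (rk : M.Q → R) : Prop :=
  ∀ (w : List A) (c c' : Cfg M),
    ReflTransGen (Step strict w.length) (init M w) c →
    ReflTransGen (Step strict w.length) (init M w) c' →
    1 ≤ c.pos → c.pos ≤ w.length → c'.pos = c.pos → c.pos ∉ c.seen → c'.pos ∉ c'.seen →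
    c'.tape = c.tape → rk c'.state = rk c.state →
    ∀ q b d q' b' d', (q, b, d) ∈ M.δ c.state (c.tape c.pos) →
      (q', b', d') ∈ M.δ c'.state (c.tape c.pos) → rk q = rk c.state → rk q' = rk c.state → b = b'

section sets

variable (strict : Prop) (M : LimAut A) {k : ℕ} (rk : M.Q → Fin (k + 1))

/-- The states of rank `j` reached from the set `P` by the first visit of a cell containing `σ` in
which `b` is written; `T` and `T'` are the tables before and after. -/
def img (T T' : Set (M.Q × M.Q)) (σ : Sym M.W) (b : M.W) (P : Set M.Q) (j : Fin (k + 1)) :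
    Set M.Q :=
  {q' | rk q' = j ∧ ∃ p ∈ P, ∃ q d, (q, b, d) ∈ M.δ p σ ∧ (d = true → q' = q) ∧
    (d = false → ∃ s, (q, s) ∈ T ∧ (s, q') ∈ T')}

/-- The states of the set automaton: rank, table, set of states. -/
abbrev XS (k : ℕ) : Type := Fin (k + 1) × Set (M.Q × M.Q) × Set M.Q

open Classical in
/-- The symbol written by the moves from the set `P` that keep the rank `j`. -/
noncomputable def sy (a : A) (P : Set M.Q) (j : Fin (k + 1)) : M.W :=
  if h : ∃ b, ∃ p ∈ P, ∃ q d, (q, b, d) ∈ M.δ p (.sym (M.inp a)) ∧ rk q = j then h.choose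
  else M.inp a

/-- The deterministic moves: the rank is kept. -/
noncomputable def dX (a : A) (x : XS M k) : XS M k :=
  (x.1, ext strict M x.2.1 (.sym (sy M rk a x.2.2 x.1)),
    img M rk x.2.1 (ext strict M x.2.1 (.sym (sy M rk a x.2.2 x.1))) (.sym (M.inp a))
      (sy M rk a x.2.2 x.1) x.2.2 x.1)

/-- The moves that raise the rank: any symbol is written. -/
def jX (a : A) (x x' : XS M k) : Prop :=
  x.1 < x'.1 ∧ ∃ b, x'.2.1 = ext strict M x.2.1 (.sym b) ∧
    x'.2.2 = img M rk x.2.1 x'.2.1 (.sym (M.inp a)) b x.2.2 x'.1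

/-- The states reached after `t` letters. -/
def sreach (w : List A) : ℕ → XS M k → Prop
  | 0, x => x = (rk M.q0, ext strict M ∅ .lm, {M.q0})
  | t + 1, x => ∃ y, sreach w t y ∧ ∃ a, w[t]? = some a ∧ (x = dX strict M rk a y ∨
      jX strict M rk a y x)

end sets

section front

variable {strict : Prop} {M : LimAut A}

/-- From the first visit of a cell to the first visit of the next cell. -/
theorem front_step {w : List A} {m : ℕ} (hm : m + 1 ≤ w.length + 1) {τ : ℕ → Sym M.W}
    {S : Set ℕ} {p : M.Q} (hS : ∀ i, 1 ≤ i → (i ∈ S ↔ i ≤ m)) (h0 : τ 0 = .lm)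
    (hreach : ReflTransGen (Step strict w.length) (init M w) ⟨p, m + 1, τ, S⟩) {q : M.Q} {b : M.W}
    {d : Bool} {q' : M.Q} (hδ : (q, b, d) ∈ M.δ p (τ (m + 1))) (hr : d = true → q' = q)
    (hl : d = false → ∃ s, (q, s) ∈ Tab strict M τ m ∧
      (s, q') ∈ Tab strict M (Function.update τ (m + 1) ((τ (m + 1)).rewrite b)) (m + 1)) :
    ∃ S' : Set ℕ, (∀ i, 1 ≤ i → (i ∈ S' ↔ i ≤ m + 1)) ∧
      ReflTransGen (Step strict w.length) (init M w)
        ⟨q', m + 2, Function.update τ (m + 1) ((τ (m + 1)).rewrite b), S'⟩ := by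
  set τ' : ℕ → Sym M.W := Function.update τ (m + 1) ((τ (m + 1)).rewrite b) with hτ'
  have hagree : ∀ i, i ≤ m → τ' i = τ i := by
    intro i hi
    rw [hτ', Function.update_of_ne]
    omega
  have hnot : m + 1 ∉ S := by
    intro h
    have := (hS (m + 1) (by omega)).1 h
    omega
  have hS1 : ∀ i, 1 ≤ i → (i ∈ insert (m + 1) S ↔ i ≤ m + 1) := by
    intro i hi
    rw [Set.mem_insert_iff, hS i hi]
    omega
  have h0' : τ' 0 = .lm := by rw [hagree 0 (by omega)]; exact h0
  cases d
  · obtain ⟨s, hs1, hs2⟩ := hl rfl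
    have hstep : Step strict w.length (⟨p, m + 1, τ, S⟩ : Cfg M)
        ⟨q, m, τ', insert (m + 1) S⟩ :=
      ⟨hm, q, b, false, hδ, fun _ h => absurd h hnot, rfl, fun h => absurd h hnot,
        fun _ => rfl, rfl, by simp, by simp⟩
    have hpath : ReflTransGen (Fr strict M τ' (m + 1)) (q, m) (q', m + 2) := by
      have h1 : ReflTransGen (Fr strict M τ m) (q, m) (s, m + 1) := hs1
      have h2 : ReflTransGen (Fr strict M τ' (m + 1)) (q, m) (s, m + 1) :=
        Pool.Agent.H630R2.LA.FrS.mono (Nat.le_succ m)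
          (Pool.Agent.H630R2.LA.FrS.congr (fun i hi => (hagree i hi).symm) h1)
      exact h2.trans hs2
    obtain ⟨S', hS', hlift⟩ := lift hm h0' hpath _ hS1
    exact ⟨S', hS', (hreach.tail hstep).trans hlift⟩
  · have hq := hr rfl
    have hstep : Step strict w.length (⟨p, m + 1, τ, S⟩ : Cfg M)
        ⟨q, m + 2, τ', insert (m + 1) S⟩ :=
      ⟨hm, q, b, true, hδ, fun _ h => absurd h hnot, rfl, fun h => absurd h hnot,
        fun _ => rfl, rfl, by simp, by simp⟩
    refine ⟨insert (m + 1) S, hS1, ?_⟩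
    rw [hq]
    exact hreach.tail hstep

variable {k : ℕ} {rk : M.Q → Fin (k + 1)}

/-- All the states of a state of the set automaton are reached with the same tape. -/
theorem front {w : List A} (t : ℕ) (ht : t ≤ w.length) : ∀ x : XS M k,
    sreach strict M rk w t x → ∃ τ : ℕ → Sym M.W, (∀ i, t < i → τ i = initTape M w i) ∧
      τ 0 = .lm ∧ Tab strict M τ t = x.2.1 ∧ ∀ p ∈ x.2.2, ∃ S : Set ℕ,
        (∀ i, 1 ≤ i → (i ∈ S ↔ i ≤ t)) ∧
        ReflTransGen (Step strict w.length) (init M w) ⟨p, t + 1, τ, S⟩ := by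
  induction t with
  | zero =>
    rintro x rfl
    refine ⟨initTape M w, fun _ _ => rfl, rfl, ?_, ?_⟩
    · rw [Tab_zero]; rfl
    · intro p hp
      have hp' : p = M.q0 := hp
      subst hp'
      refine ⟨∅, ?_, ReflTransGen.refl⟩
      intro i hi; simp; omega
  | succ t ih =>
    rintro x ⟨y, hy, a, ha, h⟩
    obtain ⟨τ, h1, h2, h3, h4⟩ := ih (by omega) y hy
    have hcell : τ (t + 1) = .sym (M.inp a) := by
      rw [h1 (t + 1) (by omega)]
      simp only [initTape, ha]
    obtain ⟨b, hT, hP⟩ : ∃ b, x.2.1 = ext strict M y.2.1 (.sym b) ∧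
        x.2.2 = img M rk y.2.1 x.2.1 (.sym (M.inp a)) b y.2.2 x.1 := by
      rcases h with rfl | ⟨_, b, h5, h6⟩
      · exact ⟨_, rfl, rfl⟩
      · exact ⟨b, h5, h6⟩
    have htab : Tab strict M (Function.update τ (t + 1) ((τ (t + 1)).rewrite b)) (t + 1) =
        x.2.1 := by
      rw [Tab_succ, Function.update_self, hcell, hT, ← h3]
      congr 1
      exact Pool.Agent.H630R2.LA.Tab.congr (fun i hi => by
        rw [Function.update_of_ne]
        omega)
    refine ⟨Function.update τ (t + 1) ((τ (t + 1)).rewrite b), ?_, ?_, htab, ?_⟩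
    · intro i hi
      rw [Function.update_of_ne (by omega)]
      exact h1 i (by omega)
    · rw [Function.update_of_ne (by omega)]
      exact h2
    · intro p' hp'
      rw [hP] at hp'
      obtain ⟨_, p, hp, q, d, h5, h6, h7⟩ := hp'
      obtain ⟨S, hS, hreach⟩ := h4 p hp
      refine front_step (by omega) hS h2 hreach (q := q) (d := d) ?_ h6 ?_
      · rw [hcell]; exact h5
      · intro hd
        obtain ⟨s, h8, h9⟩ := h7 hd
        refine ⟨s, ?_, ?_⟩
        · rw [h3]; exact h8
        · rw [htab]; exact h9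

end front

section rank

variable {strict : Prop} {M : LimAut A} {k : ℕ} {rk : M.Q → Fin (k + 1)}

theorem ext_rank (hm : ∀ p σ q b d, (q, b, d) ∈ M.δ p σ → rk p ≤ rk q) {T : Set (M.Q × M.Q)}
    {σ : Sym M.W} (hT : ∀ x ∈ T, rk x.1 ≤ rk x.2) : ∀ x ∈ ext strict M T σ, rk x.1 ≤ rk x.2 := by
  rintro ⟨p, q⟩ ⟨s, h1, b, h2, _⟩
  have h3 : rk p ≤ rk s := by
    clear h2
    change ReflTransGen _ p s at h1
    induction h1 with
    | refl => exact le_rfl
    | tail _ h ih =>
      obtain ⟨r, ⟨b', h4, _⟩, h5⟩ := h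
      exact (ih.trans (hm _ _ _ _ _ h4)).trans (hT _ h5)
  exact h3.trans (hm _ _ _ _ _ h2)

theorem sreach_inv (hm : ∀ p σ q b d, (q, b, d) ∈ M.δ p σ → rk p ≤ rk q) {w : List A} (t : ℕ) :
    ∀ x : XS M k, sreach strict M rk w t x →
    (∀ y ∈ x.2.1, rk y.1 ≤ rk y.2) ∧ ∀ p ∈ x.2.2, rk p = x.1 := by
  induction t with
  | zero =>
    rintro x rfl
    refine ⟨ext_rank hm (fun y hy => absurd hy (Set.notMem_empty y)), fun p hp => ?_⟩
    have hp' : p = M.q0 := hp
    rw [hp']
  | succ t ih =>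
    rintro x ⟨y, hy, a, _, h⟩
    obtain ⟨h1, h2⟩ := ih y hy
    rcases h with rfl | ⟨h3, b, h4, h5⟩
    · exact ⟨ext_rank hm h1, fun p hp => hp.1⟩
    · refine ⟨?_, fun p hp => ?_⟩
      · rw [h4]
        exact ext_rank hm h1
      · rw [h5] at hp
        exact hp.1

theorem sy_eq (hg : NoChoice strict M rk) {w : List A} {t : ℕ} (ht : t < w.length) {x : XS M k}
    (hx : sreach strict M rk w t x) (hP : ∀ p ∈ x.2.2, rk p = x.1) {a : A} (ha : w[t]? = some a)
    {p q : M.Q} {b : M.W} {d : Bool} (hp : p ∈ x.2.2)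
    (hδ : (q, b, d) ∈ M.δ p (.sym (M.inp a))) (hq : rk q = x.1) : sy M rk a x.2.2 x.1 = b := by
  have hex : ∃ b, ∃ p ∈ x.2.2, ∃ q d, (q, b, d) ∈ M.δ p (.sym (M.inp a)) ∧ rk q = x.1 :=
    ⟨b, p, hp, q, d, hδ, hq⟩
  simp only [sy, dif_pos hex]
  obtain ⟨p', hp', q', d', hδ', hq'⟩ := hex.choose_spec
  obtain ⟨τ, h1, h2, h3, h4⟩ := front t ht.le x hx
  have hcell : τ (t + 1) = .sym (M.inp a) := by
    rw [h1 (t + 1) (by omega)]
    simp only [initTape, ha]
  obtain ⟨S, hS, hreach⟩ := h4 p hp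
  obtain ⟨S', hS', hreach'⟩ := h4 p' hp'
  have hnot : ∀ U : Set ℕ, (∀ i, 1 ≤ i → (i ∈ U ↔ i ≤ t)) → t + 1 ∉ U := by
    intro U hU h
    have := (hU (t + 1) (by omega)).1 h
    omega
  refine hg w ⟨p', t + 1, τ, S'⟩ ⟨p, t + 1, τ, S⟩ hreach' hreach (by show 1 ≤ t + 1; omega)
    (by show t + 1 ≤ w.length; omega) rfl (hnot S' hS') (hnot S hS) rfl ?_ q' _ d' q b d ?_ ?_ ?_ ?_
  · show rk p = rk p'
    rw [hP p hp, hP p' hp']
  · show (q', _, d') ∈ M.δ p' (τ (t + 1))
    rw [hcell]
    exact hδ'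
  · show (q, b, d) ∈ M.δ p (τ (t + 1))
    rw [hcell]
    exact hδ
  · show rk q' = rk p'
    rw [hq', hP p' hp']
  · show rk q = rk p'
    rw [hq, hP p' hp']

theorem nreach_iff (hm : ∀ p σ q b d, (q, b, d) ∈ M.δ p σ → rk p ≤ rk q)
    (hg : NoChoice strict M rk)
    {w : List A} (t : ℕ) (ht : t ≤ w.length) : ∀ (T : Set (M.Q × M.Q)) (q : M.Q),
    nreach strict M (initTape M w) t (T, q) ↔
      ∃ x : XS M k, sreach strict M rk w t x ∧ x.2.1 = T ∧ q ∈ x.2.2 := by
  induction t with
  | zero =>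
    intro T q
    constructor
    · intro h
      have h' : (T, q) = (ext strict M ∅ .lm, M.q0) := h
      simp only [Prod.mk.injEq] at h'
      obtain ⟨rfl, rfl⟩ := h'
      exact ⟨(rk M.q0, ext strict M ∅ .lm, {M.q0}), rfl, rfl, rfl⟩
    · rintro ⟨x, rfl, rfl, h⟩
      have h' : q = M.q0 := h
      rw [h']
      exact rfl
  | succ t ih =>
    intro T' q'
    have hwt : w[t]? = some w[t] := List.getElem?_eq_getElem (by omega)
    have hcell : initTape M w (t + 1) = .sym (M.inp w[t]) := by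
      simp only [initTape, hwt]
    constructor
    · rintro ⟨⟨T, p⟩, h1, q, b, d, h2, h3, h4, h5⟩
      rw [hcell] at h2 h3
      obtain ⟨x, hx, rfl, hp⟩ := (ih (by omega) T p).1 h1
      obtain ⟨i1, i2⟩ := sreach_inv hm t x hx
      have h3' : T' = ext strict M x.2.1 (.sym b) := h3
      have r1 : rk p ≤ rk q := hm _ _ _ _ _ h2
      have r2 : rk q ≤ rk q' := by
        cases d
        · obtain ⟨s, h6, h7⟩ := h5 rfl
          have h8 : rk q ≤ rk s := i1 _ h6
          refine h8.trans ?_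
          have h9 : (s, q') ∈ ext strict M x.2.1 (.sym b) := by
            rw [← h3']
            exact h7
          exact ext_rank hm i1 _ h9
        · have h6 : q' = q := h4 rfl
          rw [h6]
      have r3 := i2 p hp
      by_cases hb : rk q' = x.1
      · have hq : rk q = x.1 := by
          refine le_antisymm ?_ ?_
          · rw [← hb]
            exact r2
          · rw [← r3]
            exact r1
        have hbg : sy M rk w[t] x.2.2 x.1 = b := sy_eq hg (by omega) hx i2 hwt hp h2 hq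
        subst hbg
        refine ⟨dX strict M rk w[t] x, ⟨x, hx, w[t], hwt, Or.inl rfl⟩, h3'.symm, hb, p, hp, q, d,
          h2, h4, ?_⟩
        intro hd
        obtain ⟨s, h6, h7⟩ := h5 hd
        refine ⟨s, h6, ?_⟩
        rw [← h3']
        exact h7
      · have hlt : x.1 < rk q' := by
          refine lt_of_le_of_ne ?_ (fun e => hb e.symm)
          rw [← r3]
          exact r1.trans r2
        exact ⟨(rk q', T', img M rk x.2.1 T' (.sym (M.inp w[t])) b x.2.2 (rk q')),
          ⟨x, hx, w[t], hwt, Or.inr ⟨hlt, b, h3', rfl⟩⟩, rfl, rfl, p, hp, q, d, h2, h4, h5⟩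
    · rintro ⟨x, ⟨y, hy, a, ha, h⟩, rfl, hq⟩
      rw [hwt] at ha
      cases ha
      rcases h with rfl | ⟨h3, b, h4, h5⟩
      · obtain ⟨_, p, hp, q, d, h6, h7, h8⟩ := hq
        refine ⟨(y.2.1, p), (ih (by omega) _ _).2 ⟨y, hy, rfl, hp⟩, q, sy M rk w[t] y.2.2 y.1, d,
          ?_, ?_, h7, h8⟩
        · rw [hcell]; exact h6
        · rw [hcell]; rfl
      · rw [h5] at hq
        obtain ⟨_, p, hp, q, d, h6, h7, h8⟩ := hq
        refine ⟨(y.2.1, p), (ih (by omega) _ _).2 ⟨y, hy, rfl, hp⟩, q, b, d, ?_, ?_, h7, h8⟩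
        · rw [hcell]; exact h6
        · rw [hcell]; exact h4

end rank

section simulate

variable {strict : Prop} {M : LimAut A}

open Classical in
/-- A 1-limited automaton with `k + 1` ranks has an equivalent deterministic one. -/
theorem exists_det_k [Finite A] (M : LimAut A) (strict : Prop) (k : ℕ) (rk : M.Q → Fin (k + 1))
    (hm : ∀ p σ q b d, (q, b, d) ∈ M.δ p σ → rk p ≤ rk q) (hg : NoChoice strict M rk)
    (h : ℕ) (hh : 1 ≤ h) (hcard : Nat.card (XS M k) ≤ 2 ^ h) (i : ℕ) (hi : k < 2 ^ i) :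
    ∃ M' : LimAut A, M'.Deterministic ∧ M'.language strict = M.language strict ∧
      M'.size ≤ 2 ^ (11 + 3 * h + (4 * h + 6) * (i + 1)) * (Nat.card A + 1) := by
  have := M.finQ
  obtain ⟨e⟩ : Nonempty (XS M k ↪ Fin (2 ^ h)) := by
    have e1 := Finite.equivFin (XS M k)
    exact ⟨e1.toEmbedding.trans (Fin.castLEEmb hcard)⟩
  let dI : A → Fin (2 ^ h) → Fin (2 ^ h) := fun a =>
    Function.extend e (fun x => e (dX strict M rk a x)) id
  let stI : Fin (2 ^ h) → ℕ := Function.extend e (fun x => x.1.val) (fun _ => 0)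
  let jI : A → Fin (2 ^ h) → Fin (2 ^ h) → Bool := fun a i i' =>
    decide (∃ x x', e x = i ∧ e x' = i' ∧ jX strict M rk a x x')
  have hdI : ∀ a x, dI a (e x) = e (dX strict M rk a x) := fun a x =>
    e.injective.extend_apply _ _ _
  have hstI : ∀ x, stI (e x) = x.1.val := fun x => e.injective.extend_apply _ _ _
  have c1 : ∀ p, stI p < 2 ^ i := by
    intro p
    by_cases hp : ∃ x, e x = p
    · obtain ⟨x, rfl⟩ := hp
      rw [hstI]
      omega
    · have : stI p = 0 := Function.extend_apply' _ _ _ hp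
      omega
  have c2 : ∀ a p, stI (dI a p) = stI p := by
    intro a p
    by_cases hp : ∃ x, e x = p
    · obtain ⟨x, rfl⟩ := hp
      rw [hdI, hstI, hstI]
      rfl
    · have : dI a p = p := Function.extend_apply' _ _ _ hp
      rw [this]
  have c3 : ∀ a p q, jI a p q = true → stI p < stI q := by
    intro a p q hj
    obtain ⟨x, x', rfl, rfl, h1, _⟩ := of_decide_eq_true hj
    rw [hstI, hstI]
    exact h1
  let p0 : Fin (2 ^ h) := e (rk M.q0, ext strict M ∅ .lm, {M.q0})
  let facc : Fin (2 ^ h) → Bool := fun i =>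
    decide (∃ x, e x = i ∧ ∃ p ∈ x.2.2, ∃ y, nstep strict M .rm (x.2.1, p) y ∧ y.2 ∈ M.F)
  refine ⟨detM h (RR dI jI i) p0 facc, detM_det _ _ _ _, ?_, size_final i⟩
  ext w
  rw [detM_language (goodR c1 c2 c3) hh, mem_language]
  have key : ∀ t, t ≤ w.length → ∀ i, nr h (lrd dI jI) p0 w t i ↔
      ∃ x, e x = i ∧ sreach strict M rk w t x := by
    intro t
    induction t with
    | zero =>
      intro _ i
      rw [nr_zero]
      constructor
      · rintro rfl
        exact ⟨_, rfl, rfl⟩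
      · rintro ⟨x, rfl, hx⟩
        have hx' : x = (rk M.q0, ext strict M ∅ .lm, {M.q0}) := hx
        rw [hx']
    | succ t ih =>
      intro ht i
      constructor
      · rintro ⟨p, hp, a, ha, hr⟩
        obtain ⟨x, rfl, hx2⟩ := (ih (by omega) p).1 hp
        rw [lrd, Bool.or_eq_true, decide_eq_true_eq] at hr
        rcases hr with hr | hr
        · rw [hdI] at hr
          exact ⟨_, hr.symm, x, hx2, a, ha, Or.inl rfl⟩
        · obtain ⟨x1, x', h1, h2, h3⟩ := of_decide_eq_true hr
          have : x1 = x := e.injective h1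
          subst this
          exact ⟨x', h2, x1, hx2, a, ha, Or.inr h3⟩
      · rintro ⟨y, rfl, x, hx, a, ha, hs⟩
        refine ⟨e x, (ih (by omega) _).2 ⟨x, rfl, hx⟩, a, ha, ?_⟩
        rw [lrd, Bool.or_eq_true, decide_eq_true_eq]
        rcases hs with rfl | hs
        · left
          rw [hdI]
        · right
          exact decide_eq_true ⟨x, y, rfl, rfl, hs⟩
  have hlast : initTape M w (w.length + 1) = .rm := by
    simp only [initTape, List.getElem?_eq_none (le_refl w.length)]
  constructor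
  · rintro ⟨f, hf, hn⟩
    obtain ⟨x, rfl, hx⟩ := (key _ le_rfl f).1 hn
    obtain ⟨x1, h1, p, hp, y, hy, hyF⟩ := of_decide_eq_true hf
    have : x1 = x := e.injective h1
    subst this
    refine ⟨y.1, y.2, ⟨(x1.2.1, p), (nreach_iff hm hg _ le_rfl _ _).2 ⟨x1, hx, rfl, hp⟩, ?_⟩, hyF⟩
    rw [hlast]
    exact hy
  · rintro ⟨R, f, ⟨⟨T, p⟩, hx, hs⟩, hf⟩
    rw [hlast] at hs
    obtain ⟨x, hx1, rfl, hp⟩ := (nreach_iff hm hg _ le_rfl _ _).1 hx
    exact ⟨e x, decide_eq_true ⟨x, rfl, p, hp, (R, f), hs, hf⟩, (key _ le_rfl _).2 ⟨x, rfl, hx1⟩⟩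

end simulate

end Pool.Agent.TH588.KG
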