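import Mathlib
import Pool.Agent.TH588.KG.Sets

set_option autoImplicit false

/-!
The bound for 1-limited automata with ranked states.
-/

namespace Pool.Agent.TH588.KG

open Pool.Agent.H630R2.LA (Sym LimAut)

variable {A : Type}

theorem card_XS (M : LimAut A) (k : ℕ) : Nat.card (XS M k) =
    (k + 1) * (2 ^ (Nat.card M.Q * Nat.card M.Q) * 2 ^ Nat.card M.Q) := by
  have := M.finQ
  have h1 : ∀ X : Type, Finite X → Nat.card (Set X) = 2 ^ Nat.card X := by
    intro X hX
    have : Nat.card (Set X) = Nat.card (X → Prop) := rfl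
    rw [this, Nat.card_fun]
    simp
  unfold XS
  rw [Nat.card_prod, Nat.card_prod, h1 _ inferInstance, h1 _ inferInstance, Nat.card_prod]
  simp

theorem arithB (n K a : ℕ) (hn : 4 ≤ n) (hK : 1 ≤ K) (ha : a + 1 ≤ 2 ^ n) :
    2 ^ (11 + 3 * n ^ 2 + (4 * n ^ 2 + 6) * K) * (a + 1) ≤ 2 ^ (9 * K * n ^ 2) := by
  calc 2 ^ (11 + 3 * n ^ 2 + (4 * n ^ 2 + 6) * K) * (a + 1)
      ≤ 2 ^ (11 + 3 * n ^ 2 + (4 * n ^ 2 + 6) * K) * 2 ^ n := Nat.mul_le_mul_left _ ha
    _ = 2 ^ (11 + 3 * n ^ 2 + (4 * n ^ 2 + 6) * K + n) := by rw [pow_add 2 _ n]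
    _ ≤ 2 ^ (9 * K * n ^ 2) := by
        apply Nat.pow_le_pow_right (by omega)
        have h1 : 17 + n ≤ 2 * n ^ 2 := by nlinarith
        have h2 : 17 + n + 3 * n ^ 2 ≤ 5 * n ^ 2 := by omega
        have h3 : K * (17 + n + 3 * n ^ 2) ≤ K * (5 * n ^ 2) := Nat.mul_le_mul_left _ h2
        have h4 : 11 + n + 3 * n ^ 2 ≤ K * (11 + n + 3 * n ^ 2) := Nat.le_mul_of_pos_left _ hK
        nlinarith

/-- Every 1-limited automaton of size `n` with `k + 1` ranks has an equivalent deterministic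
1-limited automaton of size at most `2 ^ (9 * (Nat.clog 2 (min k n + 1) + 1) * n ^ 2)`. -/
theorem upper_k [Finite A] (M : LimAut A) (strict : Prop) (k : ℕ) (rk : M.Q → ℕ)
    (hk : ∀ q, rk q ≤ k) (hm : ∀ p σ q b d, (q, b, d) ∈ M.δ p σ → rk p ≤ rk q)
    (hg : NoChoice strict M rk) :
    ∃ M' : LimAut A, M'.Deterministic ∧ M'.language strict = M.language strict ∧
      M'.size ≤ 2 ^ (9 * (Nat.clog 2 (min k M.size + 1) + 1) * M.size ^ 2) := by
  classical
  have hfin := M.finQ
  have hq : Nat.card M.Q + Nat.card A + 3 ≤ M.size := by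
    unfold LimAut.size
    omega
  have hq1 : 1 ≤ Nat.card M.Q := by
    have : Nonempty M.Q := ⟨M.q0⟩
    exact Nat.card_pos
  have hfr : (Set.range rk).Finite := Set.finite_range rk
  let c : M.Q → ℕ := fun q => (Set.range rk ∩ Set.Iio (rk q)).ncard
  have hcfin : ∀ q, (Set.range rk ∩ Set.Iio (rk q)).Finite := fun q => hfr.inter_of_left _
  have hck : ∀ q, c q ≤ k := by
    intro q
    refine le_trans (Set.ncard_le_ncard Set.inter_subset_right (Set.finite_Iio _)) ?_
    rw [Set.ncard_eq_toFinset_card', Set.toFinset_Iio, Nat.card_Iio]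
    exact hk q
  have hcn : ∀ q, c q ≤ M.size := by
    intro q
    refine le_trans (Set.ncard_le_ncard Set.inter_subset_left hfr) ?_
    have h1 : (Set.range rk).ncard ≤ Nat.card M.Q := by
      rw [← Set.image_univ, ← Set.ncard_univ]
      exact Set.ncard_image_le Set.finite_univ
    omega
  have hcm : ∀ p q, rk p ≤ rk q → c p ≤ c q := by
    intro p q h
    apply Set.ncard_le_ncard _ (hcfin q)
    rintro x ⟨h1, h2⟩
    exact ⟨h1, lt_of_lt_of_le h2 h⟩
  have hclt : ∀ p q, rk p < rk q → c p < c q := by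
    intro p q h
    apply Set.ncard_lt_ncard _ (hcfin q)
    refine ⟨?_, fun hs => ?_⟩
    · rintro x ⟨h1, h2⟩
      exact ⟨h1, lt_trans h2 h⟩
    · have h1 : rk p ∈ Set.range rk ∩ Set.Iio (rk q) := ⟨⟨p, rfl⟩, h⟩
      have h2 : rk p < rk p := (hs h1).2
      exact lt_irrefl _ h2
  have hci : ∀ p q, c p = c q → rk p = rk q := by
    intro p q h
    rcases lt_trichotomy (rk p) (rk q) with h1 | h1 | h1
    · have := hclt p q h1
      omega
    · exact h1
    · have := hclt q p h1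
      omega
  have hcK : ∀ q, c q < min k M.size + 1 := by
    intro q
    have h1 := hck q
    have h2 := hcn q
    omega
  let r : M.Q → Fin (min k M.size + 1) := fun q => ⟨c q, hcK q⟩
  have hr : ∀ p q, r p = r q → rk p = rk q := by
    intro p q h
    exact hci p q (congrArg Fin.val h)
  have hg' : NoChoice strict M r := by
    intro w c c' h1 h2 h3 h4 h5 h6 h7 h8 h9 q b d q' b' d' h10 h11 h12 h13
    exact hg w c c' h1 h2 h3 h4 h5 h6 h7 h8 (hr _ _ h9) q b d q' b' d' h10 h11 (hr _ _ h12)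
      (hr _ _ h13)
  have hcard : Nat.card (XS M (min k M.size)) ≤ 2 ^ (M.size ^ 2) := by
    rw [card_XS]
    have h1 : min k M.size + 1 ≤ 2 ^ M.size := by
      have := (Nat.lt_two_pow_self : M.size < 2 ^ M.size)
      omega
    calc (min k M.size + 1) * (2 ^ (Nat.card M.Q * Nat.card M.Q) * 2 ^ Nat.card M.Q)
        ≤ 2 ^ M.size * (2 ^ (Nat.card M.Q * Nat.card M.Q) * 2 ^ Nat.card M.Q) :=
          Nat.mul_le_mul_right _ h1
      _ = 2 ^ (M.size + (Nat.card M.Q * Nat.card M.Q + Nat.card M.Q)) := by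
          rw [pow_add 2 M.size, pow_add 2 (Nat.card M.Q * Nat.card M.Q)]
      _ ≤ 2 ^ (M.size ^ 2) := by
          apply Nat.pow_le_pow_right (by omega)
          generalize M.size = n at *
          generalize Nat.card M.Q = q at *
          have h2 : q ≤ n - 3 := by omega
          obtain ⟨m, rfl⟩ : ∃ m, n = m + 3 := ⟨n - 3, by omega⟩
          have h3 : q ≤ m := by omega
          nlinarith [Nat.mul_le_mul h3 h3]
  obtain ⟨M', h1, h2, h3⟩ := exists_det_k M strict (min k M.size) r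
    (fun p σ q b d h => hcm _ _ (hm p σ q b d h)) hg' (M.size ^ 2) (by nlinarith) hcard
    (Nat.clog 2 (min k M.size + 1)) (Nat.le_pow_clog (by omega) _)
  refine ⟨M', h1, h2, h3.trans ?_⟩
  refine arithB M.size (Nat.clog 2 (min k M.size + 1) + 1) (Nat.card A) (by omega) (by omega) ?_
  calc Nat.card A + 1 ≤ M.size := by omega
    _ ≤ 2 ^ M.size := (Nat.lt_two_pow_self).le

end Pool.Agent.TH588.KG
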