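import Mathlib
import Pool.Agent.TH588.KG.Bound
import Pool.Agent.TH588.KG.After

set_option autoImplicit false

/-!
The set automaton of a 1-limited automaton whose states are divided into classes, such that it has
no choice what to write as long as it stays in a class.  Its states are a number of changes, a
class, the table of the frozen part of the tape and a set of states.
-/

namespace Pool.Agent.TH588.KG

open Relation
open Pool.Agent.H630R2.LA (Sym LimAut Cfg Step init fz Fr Tab ext nstep nreach initTape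
  mem_language nr nr_zero lift Tab_zero Tab_succ)

variable {A : Type}

theorem After.mono {strict : Prop} {M : LimAut A} {C : Type} {κ : M.Q → C} {w : List A} {j : ℕ}
    {c : Cfg M} (h : After strict κ w j c) : ∀ j', j ≤ j' → After strict κ w j' c := by
  induction h with
  | start j => intro j' _; exact .start j'
  | keep j c c' _ h1 h2 ih => intro j' hj; exact .keep j' c c' (ih j' hj) h1 h2
  | change j c c' _ h1 ih =>
    intro j' hj
    obtain ⟨i, rfl⟩ : ∃ i, j' = i + 1 := ⟨j' - 1, by omega⟩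
    exact .change i c c' (ih i (by omega)) h1

/-- If the moves never lower the rank, then the rank bounds the number of the changes. -/
theorem after_rank {strict : Prop} {M : LimAut A} {rk : M.Q → ℕ}
    (hm : ∀ p σ q b d, (q, b, d) ∈ M.δ p σ → rk p ≤ rk q) {w : List A} {c : Cfg M}
    (h : ReflTransGen (Step strict w.length) (init M w) c) : After strict rk w (rk c.state) c := by
  induction h with
  | refl => exact .start _
  | tail _ hs ih =>
    rename_i c c' _
    have h1 : rk c.state ≤ rk c'.state := by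
      obtain ⟨_, q, b, d, hδ, _, hq, _⟩ := hs
      rw [hq]
      exact hm _ _ _ _ _ hδ
    rcases h1.eq_or_lt with h2 | h2
    · rw [h2] at ih
      exact .keep _ _ _ ih hs h2.symm
    · exact (After.change _ _ _ ih hs).mono _ h2

/-- Moves in the frozen part with at most `i` changes of the class. -/
inductive FrK (strict : Prop) (M : LimAut A) {C : Type} (κ : M.Q → C) (τ : ℕ → Sym M.W) (m : ℕ) :
    ℕ → M.Q × ℕ → M.Q × ℕ → Prop
  | refl (i : ℕ) (c : M.Q × ℕ) : FrK strict M κ τ m i c c
  | keep (i : ℕ) (c c' c'' : M.Q × ℕ) : Fr strict M τ m c c' → κ c'.1 = κ c.1 →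
      FrK strict M κ τ m i c' c'' → FrK strict M κ τ m i c c''
  | change (i : ℕ) (c c' c'' : M.Q × ℕ) : Fr strict M τ m c c' →
      FrK strict M κ τ m i c' c'' → FrK strict M κ τ m (i + 1) c c''

theorem FrK.forget {strict : Prop} {M : LimAut A} {C : Type} {κ : M.Q → C} {τ : ℕ → Sym M.W}
    {m i : ℕ} {c c' : M.Q × ℕ} (h : FrK strict M κ τ m i c c') :
    ReflTransGen (Fr strict M τ m) c c' := by
  induction h with
  | refl => exact ReflTransGen.refl
  | keep i c c' c'' h1 _ _ ih => exact ReflTransGen.head h1 ih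
  | change i c c' c'' h1 _ ih => exact ReflTransGen.head h1 ih

theorem FrK.zero {strict : Prop} {M : LimAut A} {C : Type} {κ : M.Q → C} {τ : ℕ → Sym M.W}
    {m i : ℕ} {c c' : M.Q × ℕ} (h : FrK strict M κ τ m i c c') : i = 0 → κ c'.1 = κ c.1 := by
  induction h with
  | refl => intro _; rfl
  | keep i c c' c'' _ h2 _ ih => intro hi; exact (ih hi).trans h2
  | change i c c' c'' _ _ ih => intro hi; omega

section sets

variable (strict : Prop) (M : LimAut A) {C : Type} {k : ℕ} (κ : M.Q → C)

/-- The states of class `j` reached from the set `P` by the first visit of a cell containing `σ` in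
which `b` is written; `T` and `T'` are the tables before and after. -/
def imgC (T T' : Set (M.Q × M.Q)) (σ : Sym M.W) (b : M.W) (P : Set M.Q) (j : C) : Set M.Q :=
  {q' | κ q' = j ∧ ∃ p ∈ P, ∃ q d, (q, b, d) ∈ M.δ p σ ∧ (d = true → q' = q) ∧
    (d = false → ∃ s, (q, s) ∈ T ∧ (s, q') ∈ T')}

/-- The states of the set automaton. -/
abbrev XC (C : Type) (k : ℕ) : Type := Fin (k + 1) × C × Set (M.Q × M.Q) × Set M.Q

open Classical in
/-- The symbol written by the moves from the set `P` that keep the class `j`. -/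
noncomputable def syC (a : A) (P : Set M.Q) (j : C) : M.W :=
  if h : ∃ b, ∃ p ∈ P, ∃ q d, (q, b, d) ∈ M.δ p (.sym (M.inp a)) ∧ κ q = j then h.choose
  else M.inp a

variable (sy : A → Set M.Q → C → M.W)

/-- The deterministic moves: the class is kept, and the symbol given by `sy` is written. -/
noncomputable def dC (a : A) (x : XC M C k) : XC M C k :=
  (x.1, x.2.1, ext strict M x.2.2.1 (.sym (sy a x.2.2.2 x.2.1)),
    imgC M κ x.2.2.1 (ext strict M x.2.2.1 (.sym (sy a x.2.2.2 x.2.1))) (.sym (M.inp a))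
      (sy a x.2.2.2 x.2.1) x.2.2.2 x.2.1)

/-- The other moves: any symbol is written, any class is entered, and the counter is raised. -/
def jC (a : A) (x x' : XC M C k) : Prop :=
  x.1 < x'.1 ∧ ∃ b, x'.2.2.1 = ext strict M x.2.2.1 (.sym b) ∧
    x'.2.2.2 = imgC M κ x.2.2.1 x'.2.2.1 (.sym (M.inp a)) b x.2.2.2 x'.2.1

/-- The states reached after `t` letters. -/
def creach (w : List A) : ℕ → XC M C k → Prop
  | 0, x => x = (0, κ M.q0, ext strict M ∅ .lm, {M.q0})
  | t + 1, x => ∃ y, creach w t y ∧ ∃ a, w[t]? = some a ∧ (x = dC strict M κ sy a y ∨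
      jC strict M κ a y x)

end sets

section front

variable {strict : Prop} {M : LimAut A} {C : Type} {k : ℕ} {κ : M.Q → C}
  {sy : A → Set M.Q → C → M.W}

/-- All the states of a state of the set automaton are reached with the same tape. -/
theorem frontC {w : List A} (t : ℕ) (ht : t ≤ w.length) : ∀ x : XC M C k,
    creach strict M κ sy w t x → ∃ τ : ℕ → Sym M.W, (∀ i, t < i → τ i = initTape M w i) ∧
      τ 0 = .lm ∧ Tab strict M τ t = x.2.2.1 ∧ ∀ p ∈ x.2.2.2, ∃ S : Set ℕ,
        (∀ i, 1 ≤ i → (i ∈ S ↔ i ≤ t)) ∧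
        ReflTransGen (Step strict w.length) (init M w) ⟨p, t + 1, τ, S⟩ := by
  induction t with
  | zero =>
    rintro x rfl
    refine ⟨initTape M w, fun _ _ => rfl, rfl, ?_, ?_⟩
    · rw [Tab_zero]; rfl
    · intro p hp
      have hp' : p = M.q0 := hp
      subst hp'
      refine ⟨∅, ?_, ReflTransGen.refl⟩
      intro i hi; simp; omega
  | succ t ih =>
    rintro x ⟨y, hy, a, ha, h⟩
    obtain ⟨τ, h1, h2, h3, h4⟩ := ih (by omega) y hy
    have hcell : τ (t + 1) = .sym (M.inp a) := by
      rw [h1 (t + 1) (by omega)]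
      simp only [initTape, ha]
    obtain ⟨b, hT, hP⟩ : ∃ b, x.2.2.1 = ext strict M y.2.2.1 (.sym b) ∧
        x.2.2.2 = imgC M κ y.2.2.1 x.2.2.1 (.sym (M.inp a)) b y.2.2.2 x.2.1 := by
      rcases h with rfl | ⟨_, b, h5, h6⟩
      · exact ⟨_, rfl, rfl⟩
      · exact ⟨b, h5, h6⟩
    have htab : Tab strict M (Function.update τ (t + 1) ((τ (t + 1)).rewrite b)) (t + 1) =
        x.2.2.1 := by
      rw [Tab_succ, Function.update_self, hcell, hT, ← h3]
      congr 1
      exact Pool.Agent.H630R2.LA.Tab.congr (fun i hi => by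
        rw [Function.update_of_ne]
        omega)
    refine ⟨Function.update τ (t + 1) ((τ (t + 1)).rewrite b), ?_, ?_, htab, ?_⟩
    · intro i hi
      rw [Function.update_of_ne (by omega)]
      exact h1 i (by omega)
    · rw [Function.update_of_ne (by omega)]
      exact h2
    · intro p' hp'
      rw [hP] at hp'
      obtain ⟨_, p, hp, q, d, h5, h6, h7⟩ := hp'
      obtain ⟨S, hS, hreach⟩ := h4 p hp
      refine front_step (by omega) hS h2 hreach (q := q) (d := d) ?_ h6 ?_
      · rw [hcell]; exact h5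
      · intro hd
        obtain ⟨s, h8, h9⟩ := h7 hd
        refine ⟨s, ?_, ?_⟩
        · rw [h3]; exact h8
        · rw [htab]; exact h9

theorem creach_inv {w : List A} (t : ℕ) :
    ∀ x : XC M C k, creach strict M κ sy w t x → ∀ p ∈ x.2.2.2, κ p = x.2.1 := by
  cases t with
  | zero =>
    rintro x rfl p hp
    have hp' : p = M.q0 := hp
    rw [hp']
  | succ t =>
    rintro x ⟨y, hy, a, _, h⟩ p hp
    rcases h with rfl | ⟨h3, b, h4, h5⟩
    · exact hp.1
    · rw [h5] at hp
      exact hp.1

theorem syC_eq (hg : NoChoice strict M κ) {w : List A} {t : ℕ} (ht : t < w.length) {x : XC M C k}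
    (hx : creach strict M κ (syC M κ) w t x) {a : A} (ha : w[t]? = some a)
    {p q : M.Q} {b : M.W} {d : Bool} (hp : p ∈ x.2.2.2)
    (hδ : (q, b, d) ∈ M.δ p (.sym (M.inp a))) (hq : κ q = x.2.1) :
    syC M κ a x.2.2.2 x.2.1 = b := by
  have hP := creach_inv t x hx
  have hex : ∃ b, ∃ p ∈ x.2.2.2, ∃ q d, (q, b, d) ∈ M.δ p (.sym (M.inp a)) ∧ κ q = x.2.1 :=
    ⟨b, p, hp, q, d, hδ, hq⟩
  simp only [syC, dif_pos hex]
  obtain ⟨p', hp', q', d', hδ', hq'⟩ := hex.choose_spec
  obtain ⟨τ, h1, h2, h3, h4⟩ := frontC t ht.le x hx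
  have hcell : τ (t + 1) = .sym (M.inp a) := by
    rw [h1 (t + 1) (by omega)]
    simp only [initTape, ha]
  obtain ⟨S, hS, hreach⟩ := h4 p hp
  obtain ⟨S', hS', hreach'⟩ := h4 p' hp'
  have hnot : ∀ U : Set ℕ, (∀ i, 1 ≤ i → (i ∈ U ↔ i ≤ t)) → t + 1 ∉ U := by
    intro U hU h
    have := (hU (t + 1) (by omega)).1 h
    omega
  refine hg w ⟨p', t + 1, τ, S'⟩ ⟨p, t + 1, τ, S⟩ hreach' hreach (by show 1 ≤ t + 1; omega)
    (by show t + 1 ≤ w.length; omega) rfl (hnot S' hS') (hnot S hS) rfl ?_ q' _ d' q b d ?_ ?_ ?_ ?_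
  · show κ p = κ p'
    rw [hP p hp, hP p' hp']
  · show (q', _, d') ∈ M.δ p' (τ (t + 1))
    rw [hcell]
    exact hδ'
  · show (q, b, d) ∈ M.δ p (τ (t + 1))
    rw [hcell]
    exact hδ
  · show κ q' = κ p'
    rw [hq', hP p' hp']
  · show κ q = κ p'
    rw [hq, hP p' hp']

/-- The states in the sets are reached. -/
theorem nreach_of {w : List A} (t : ℕ) (ht : t ≤ w.length) :
    ∀ x : XC M C k, creach strict M κ sy w t x → ∀ p ∈ x.2.2.2,
      nreach strict M (initTape M w) t (x.2.2.1, p) := by
  induction t with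
  | zero =>
    rintro x rfl p hp
    have hp' : p = M.q0 := hp
    rw [hp']
    rfl
  | succ t ih =>
    have hwt : w[t]? = some w[t] := List.getElem?_eq_getElem (by omega)
    have hcell : initTape M w (t + 1) = .sym (M.inp w[t]) := by
      simp only [initTape, hwt]
    rintro x ⟨y, hy, a, ha, h⟩ q' hq
    rw [hwt] at ha
    cases ha
    rcases h with rfl | ⟨h3, b, h4, h5⟩
    · obtain ⟨_, p, hp, q, d, h6, h7, h8⟩ := hq
      refine ⟨(y.2.2.1, p), ih (by omega) y hy p hp, q, sy w[t] y.2.2.2 y.2.1, d,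
        ?_, ?_, h7, h8⟩
      · rw [hcell]; exact h6
      · rw [hcell]; rfl
    · rw [h5] at hq
      obtain ⟨_, p, hp, q, d, h6, h7, h8⟩ := hq
      refine ⟨(y.2.2.1, p), ih (by omega) y hy p hp, q, b, d, ?_, ?_, h7, h8⟩
      · rw [hcell]; exact h6
      · rw [hcell]; exact h4

end front

section count

variable (strict : Prop) (M : LimAut A) {C : Type} (k : ℕ) (κ : M.Q → C)
  (sy : A → Set M.Q → C → M.W)

/-- The set automaton accounts for the table `T` and the state `t` after the first visits of `m`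
cells, with at most `J` changes. -/
def Acc (w : List A) (J m : ℕ) (T : Set (M.Q × M.Q)) (t : M.Q) : Prop :=
  (m ≤ w.length → ∃ x : XC M C k, creach strict M κ sy w m x ∧ x.1.val ≤ J ∧ x.2.2.1 = T ∧
    t ∈ x.2.2.2) ∧
  (m = w.length + 1 → ∃ x : XC M C k, creach strict M κ sy w w.length x ∧ ∃ p ∈ x.2.2.2,
    nstep strict M .rm (x.2.2.1, p) (T, t))

/-- The invariant. -/
def Inv (w : List A) (j : ℕ) (c : Cfg M) : Prop :=
  ∃ m, m ≤ w.length + 1 ∧ (∀ i, 1 ≤ i → (i ∈ c.seen ↔ i ≤ m)) ∧
    (∀ i, m < i → c.tape i = initTape M w i) ∧ c.tape 0 = .lm ∧ c.pos ≤ m + 1 ∧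
    ∀ i t, j + i ≤ k → FrK strict M κ c.tape m i (c.state, c.pos) (t, m + 1) →
      Acc strict M k κ (syC M κ) w (j + i) m (Tab strict M c.tape m) t

variable {strict M k κ}

theorem inv_init (w : List A) (j : ℕ) : Inv strict M k κ w j (init M w) := by
  refine ⟨0, by omega, ?_, ?_, rfl, le_refl _, ?_⟩
  · intro i hi
    simp [init]; omega
  · intro i _
    rfl
  · intro i t _ ht
    have ht' : ReflTransGen (Fr strict M (init M w).tape 0) (M.q0, 1) (t, 1) := ht.forget
    rcases ReflTransGen.cases_head ht' with h1 | ⟨c', h1, _⟩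
    · simp only [Prod.mk.injEq, and_true] at h1
      subst h1
      refine ⟨fun _ => ⟨(0, κ M.q0, ext strict M ∅ .lm, {M.q0}), rfl, Nat.zero_le _, ?_, rfl⟩,
        fun h => absurd h (by omega)⟩
      rw [Tab_zero]
      rfl
    · have := h1.1
      simp at this

theorem inv_step (hg : NoChoice strict M κ) {w : List A} {j e : ℕ} {c c' : Cfg M}
    (he : e ≤ 1) (hke : e = 0 → κ c'.state = κ c.state)
    (hinv : Inv strict M k κ w j c) (hj : j + e ≤ k) (hstep : Step strict w.length c c') :
    Inv strict M k κ w (j + e) c' := by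
  obtain ⟨m, hm, hseen, htape, h0, hpos, hinv⟩ := hinv
  obtain ⟨hle, q, b, d, hδ, hstr, hst, ht1, ht2, hs', hr, hl⟩ := hstep
  by_cases hfr : c.pos ≤ m
  · -- frozen move
    have htt : c'.tape = c.tape := by
      by_cases hmem : c.pos ∈ c.seen
      · exact ht1 hmem
      · have hp0 : c.pos = 0 := by
          by_contra hne
          exact hmem ((hseen c.pos (by omega)).2 hfr)
        rw [ht2 hmem, hp0, h0]
        funext i
        by_cases hi : i = 0
        · subst hi; simp [Sym.rewrite, h0]
        · simp [Function.update, hi]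
    have hfz : fz strict M c.state (c.tape c.pos) q d := by
      refine ⟨b, hδ, ?_⟩
      intro hs
      by_cases hmem : c.pos ∈ c.seen
      · exact hstr hs hmem
      · have hp0 : c.pos = 0 := by
          by_contra hne
          exact hmem ((hseen c.pos (by omega)).2 hfr)
        rw [hp0, h0]; rfl
    refine ⟨m, hm, ?_, ?_, ?_, ?_, ?_⟩
    · intro i hi
      rw [hs', Set.mem_insert_iff, hseen i hi]
      constructor
      · rintro (h | h)
        · omega
        · exact h
      · exact fun h => Or.inr h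
    · intro i hi
      rw [htt]; exact htape i hi
    · rw [htt]; exact h0
    · cases d
      · have := hl rfl; omega
      · have := hr rfl; omega
    · intro i t hi ht
      rw [htt] at ht ⊢
      have hfr' : Fr strict M c.tape m (c.state, c.pos) (c'.state, c'.pos) := by
        refine ⟨hfr, d, ?_, hr, hl⟩
        rw [hst]; exact hfz
      have hE : j + e + i = j + (i + e) := by omega
      rw [hE]
      apply hinv (i + e) t (by omega)
      rcases Nat.le_one_iff_eq_zero_or_eq_one.1 he with h | h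
      · subst h
        exact FrK.keep _ _ _ _ hfr' (hke rfl) ht
      · subst h
        exact FrK.change _ _ _ _ hfr' ht
  · -- first visit
    have hp : c.pos = m + 1 := by omega
    have hmw : m ≤ w.length := by omega
    have hnot : c.pos ∉ c.seen := by
      intro h
      have := (hseen c.pos (by omega)).1 h
      omega
    have htape' := ht2 hnot
    have hagree : ∀ i, i ≤ m → c'.tape i = c.tape i := by
      intro i hi
      rw [htape', Function.update_of_ne]
      omega
    have hnew : c'.tape (m + 1) = (initTape M w (m + 1)).rewrite b := by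
      rw [htape', hp, Function.update_self, htape _ (by omega)]
    obtain ⟨x, hx, hxj, hxT, hxP⟩ := (hinv 0 c.state (by omega) (by
      rw [hp]
      exact FrK.refl _ _)).1 hmw
    have htab : Tab strict M c'.tape (m + 1) =
        ext strict M x.2.2.1 ((initTape M w (m + 1)).rewrite b) := by
      rw [hxT, Tab_succ, hnew, Pool.Agent.H630R2.LA.Tab.congr hagree]
    rw [hp, htape _ (by omega)] at hδ
    refine ⟨m + 1, by omega, ?_, ?_, ?_, ?_, ?_⟩
    · intro i hi
      rw [hs', Set.mem_insert_iff, hseen i hi, hp]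
      omega
    · intro i hi
      rw [htape', Function.update_of_ne (by omega)]
      exact htape i (by omega)
    · rw [hagree 0 (by omega)]; exact h0
    · cases d
      · have := hl rfl; omega
      · have := hr rfl; omega
    · intro i t hi ht
      have hgo1 : d = true → t = q := by
        intro hd
        have h1 := hr hd
        have ht' := ht.forget
        rw [h1, hp, hst] at ht'
        rcases ReflTransGen.cases_head ht' with h2 | ⟨c2, h2, _⟩
        · simp only [Prod.mk.injEq, and_true] at h2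
          exact h2.symm
        · have := h2.1
          simp at this
      have hgo2 : d = false → ∃ s, (q, s) ∈ x.2.2.1 ∧ (s, t) ∈ Tab strict M c'.tape (m + 1) := by
        intro hd
        have h1 := hl hd
        have h2 : c'.pos = m := by omega
        have ht' := ht.forget
        rw [h2, hst] at ht'
        obtain ⟨s, hs1, hs2⟩ := Pool.Agent.H630R2.LA.FrS.decomp ht' (by simp)
        refine ⟨s, ?_, hs2⟩
        rw [hxT]
        exact Pool.Agent.H630R2.LA.FrS.congr hagree hs1
      refine ⟨fun hm1 => ?_, fun hm1 => ?_⟩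
      · have hwt : w[m]? = some w[m] := List.getElem?_eq_getElem (by omega)
        have hcell : initTape M w (m + 1) = .sym (M.inp w[m]) := by
          simp only [initTape, hwt]
        rw [hcell] at hδ htab
        have htab' : Tab strict M c'.tape (m + 1) = ext strict M x.2.2.1 (.sym b) := htab
        by_cases h00 : e = 0 ∧ i = 0
        · obtain ⟨he0, hi0⟩ := h00
          have h3 : κ t = κ c'.state := ht.zero hi0
          have h4 : κ c'.state = κ c.state := hke he0
          have h5 : κ c.state = x.2.1 := creach_inv m x hx _ hxP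
          have hq : κ q = x.2.1 := by rw [← hst, h4, h5]
          have hb : syC M κ w[m] x.2.2.2 x.2.1 = b := syC_eq hg (by omega) hx hwt hxP hδ hq
          subst hb
          refine ⟨dC strict M κ (syC M κ) w[m] x, ⟨x, hx, w[m], hwt, Or.inl rfl⟩, ?_, htab'.symm,
            h3.trans (h4.trans h5), c.state, hxP, q, d, hδ, hgo1, ?_⟩
          · show x.1.val ≤ j + e + i
            omega
          · intro hd
            obtain ⟨s, h6, h7⟩ := hgo2 hd
            refine ⟨s, h6, ?_⟩
            rw [← htab']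
            exact h7
        · have hcnt : x.1.val + 1 < k + 1 := by omega
          refine ⟨(⟨x.1.val + 1, hcnt⟩, κ t, Tab strict M c'.tape (m + 1),
            imgC M κ x.2.2.1 (Tab strict M c'.tape (m + 1)) (.sym (M.inp w[m])) b x.2.2.2 (κ t)),
            ⟨x, hx, w[m], hwt, Or.inr ⟨?_, b, htab', rfl⟩⟩, ?_, rfl, rfl, c.state, hxP, q, d, hδ,
            hgo1, hgo2⟩
          · rw [Fin.lt_def]
            exact Nat.lt_succ_self _
          · show x.1.val + 1 ≤ j + e + i
            omega
      · have hm2 : m = w.length := by omega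
        subst hm2
        have hcell : initTape M w (w.length + 1) = .rm := by
          simp only [initTape, List.getElem?_eq_none (le_refl w.length)]
        rw [hcell] at hδ htab
        exact ⟨x, hx, c.state, hxP, q, b, d, hδ, htab, hgo1, hgo2⟩

theorem inv_after (hg : NoChoice strict M κ) {w : List A} {j : ℕ} {c : Cfg M}
    (h : After strict κ w j c) : j ≤ k → Inv strict M k κ w j c := by
  induction h with
  | start j => intro _; exact inv_init w j
  | keep j c c' _ h1 h2 ih =>
    intro hj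
    exact inv_step hg (Nat.zero_le 1) (fun _ => h2) (ih hj) hj h1
  | change j c c' _ h1 ih =>
    intro hj
    exact inv_step hg le_rfl (fun h => absurd h (by omega)) (ih (by omega)) hj h1

/-- Accepting computations with at most `k` changes are found. -/
theorem complete (hg : NoChoice strict M κ) {w : List A} {c : Cfg M}
    (h : After strict κ w k c) (hp : c.pos = w.length + 2) (hf : c.state ∈ M.F) :
    ∃ x : XC M C k, creach strict M κ (syC M κ) w w.length x ∧ ∃ p ∈ x.2.2.2, ∃ y,
      nstep strict M .rm (x.2.2.1, p) y ∧ y.2 ∈ M.F := by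
  obtain ⟨m, hm, _, _, _, hpos, hinv⟩ := inv_after hg h le_rfl
  have hm' : m = w.length + 1 := by omega
  subst hm'
  obtain ⟨x, hx, p, hxP, hn⟩ := (hinv 0 c.state (by omega) (by
    rw [hp]
    exact FrK.refl _ _)).2 rfl
  exact ⟨x, hx, p, hxP, _, hn, hf⟩

end count

section simulate

open Classical in
/-- The deterministic 1-limited automaton. -/
theorem exists_det_gen [Finite A] (M : LimAut A) (strict : Prop) (k : ℕ) {C : Type} [Finite C]
    (κ : M.Q → C) (sy : A → Set M.Q → C → M.W)
    (hcomp : ∀ w ∈ M.language strict, ∃ x : XC M C k, creach strict M κ sy w w.length x ∧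
      ∃ p ∈ x.2.2.2, ∃ y, nstep strict M .rm (x.2.2.1, p) y ∧ y.2 ∈ M.F)
    (h : ℕ) (hh : 1 ≤ h) (hcard : Nat.card (XC M C k) ≤ 2 ^ h) (i : ℕ) (hi : k < 2 ^ i) :
    ∃ M' : LimAut A, M'.Deterministic ∧ M'.language strict = M.language strict ∧
      M'.size ≤ 2 ^ (11 + 3 * h + (4 * h + 6) * (i + 1)) * (Nat.card A + 1) := by
  have := M.finQ
  obtain ⟨e⟩ : Nonempty (XC M C k ↪ Fin (2 ^ h)) := by
    have e1 := Finite.equivFin (XC M C k)
    exact ⟨e1.toEmbedding.trans (Fin.castLEEmb hcard)⟩
  let dI : A → Fin (2 ^ h) → Fin (2 ^ h) := fun a =>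
    Function.extend e (fun x => e (dC strict M κ sy a x)) id
  let stI : Fin (2 ^ h) → ℕ := Function.extend e (fun x => x.1.val) (fun _ => 0)
  let jI : A → Fin (2 ^ h) → Fin (2 ^ h) → Bool := fun a i i' =>
    decide (∃ x x', e x = i ∧ e x' = i' ∧ jC strict M κ a x x')
  have hdI : ∀ a x, dI a (e x) = e (dC strict M κ sy a x) := fun a x =>
    e.injective.extend_apply _ _ _
  have hstI : ∀ x, stI (e x) = x.1.val := fun x => e.injective.extend_apply _ _ _
  have c1 : ∀ p, stI p < 2 ^ i := by
    intro p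
    by_cases hp : ∃ x, e x = p
    · obtain ⟨x, rfl⟩ := hp
      rw [hstI]
      omega
    · have : stI p = 0 := Function.extend_apply' _ _ _ hp
      omega
  have c2 : ∀ a p, stI (dI a p) = stI p := by
    intro a p
    by_cases hp : ∃ x, e x = p
    · obtain ⟨x, rfl⟩ := hp
      rw [hdI, hstI, hstI]
      rfl
    · have : dI a p = p := Function.extend_apply' _ _ _ hp
      rw [this]
  have c3 : ∀ a p q, jI a p q = true → stI p < stI q := by
    intro a p q hj
    obtain ⟨x, x', rfl, rfl, h1, _⟩ := of_decide_eq_true hj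
    rw [hstI, hstI]
    exact h1
  let p0 : Fin (2 ^ h) := e (0, κ M.q0, ext strict M ∅ .lm, {M.q0})
  let facc : Fin (2 ^ h) → Bool := fun i =>
    decide (∃ x, e x = i ∧ ∃ p ∈ x.2.2.2, ∃ y, nstep strict M .rm (x.2.2.1, p) y ∧ y.2 ∈ M.F)
  refine ⟨detM h (RR dI jI i) p0 facc, detM_det _ _ _ _, ?_, size_final i⟩
  ext w
  rw [detM_language (goodR c1 c2 c3) hh]
  have key : ∀ t, t ≤ w.length → ∀ i, nr h (lrd dI jI) p0 w t i ↔
      ∃ x, e x = i ∧ creach strict M κ sy w t x := by
    intro t
    induction t with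
    | zero =>
      intro _ i
      rw [nr_zero]
      constructor
      · rintro rfl
        exact ⟨_, rfl, rfl⟩
      · rintro ⟨x, rfl, hx⟩
        have hx' : x = (0, κ M.q0, ext strict M ∅ .lm, {M.q0}) := hx
        rw [hx']
    | succ t ih =>
      intro ht i
      constructor
      · rintro ⟨p, hp, a, ha, hr⟩
        obtain ⟨x, rfl, hx2⟩ := (ih (by omega) p).1 hp
        rw [lrd, Bool.or_eq_true, decide_eq_true_eq] at hr
        rcases hr with hr | hr
        · rw [hdI] at hr
          exact ⟨_, hr.symm, x, hx2, a, ha, Or.inl rfl⟩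
        · obtain ⟨x1, x', h1, h2, h3⟩ := of_decide_eq_true hr
          have : x1 = x := e.injective h1
          subst this
          exact ⟨x', h2, x1, hx2, a, ha, Or.inr h3⟩
      · rintro ⟨y, rfl, x, hx, a, ha, hs⟩
        refine ⟨e x, (ih (by omega) _).2 ⟨x, rfl, hx⟩, a, ha, ?_⟩
        rw [lrd, Bool.or_eq_true, decide_eq_true_eq]
        rcases hs with rfl | hs
        · left
          rw [hdI]
        · right
          exact decide_eq_true ⟨x, y, rfl, rfl, hs⟩
  have hlast : initTape M w (w.length + 1) = .rm := by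
    simp only [initTape, List.getElem?_eq_none (le_refl w.length)]
  constructor
  · rintro ⟨f, hf, hn⟩
    obtain ⟨x, rfl, hx⟩ := (key _ le_rfl f).1 hn
    obtain ⟨x1, h1, p, hp, y, hy, hyF⟩ := of_decide_eq_true hf
    have : x1 = x := e.injective h1
    subst this
    rw [mem_language]
    refine ⟨y.1, y.2, ⟨(x1.2.2.1, p), nreach_of _ le_rfl _ hx _ hp, ?_⟩, hyF⟩
    rw [hlast]
    exact hy
  · intro hw
    obtain ⟨x, hx, p, hp, y, hy, hyF⟩ := hcomp w hw
    exact ⟨e x, decide_eq_true ⟨x, rfl, p, hp, y, hy, hyF⟩, (key _ le_rfl _).2 ⟨x, rfl, hx⟩⟩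

theorem exists_det_few [Finite A] (M : LimAut A) (strict : Prop) (k : ℕ) {C : Type} [Finite C]
    (κ : M.Q → C) (hg : NoChoice strict M κ)
    (hfew : ∀ w ∈ M.language strict, ∃ c : Cfg M, After strict κ w k c ∧ c.pos = w.length + 2 ∧
      c.state ∈ M.F)
    (h : ℕ) (hh : 1 ≤ h) (hcard : Nat.card (XC M C k) ≤ 2 ^ h) (i : ℕ) (hi : k < 2 ^ i) :
    ∃ M' : LimAut A, M'.Deterministic ∧ M'.language strict = M.language strict ∧
      M'.size ≤ 2 ^ (11 + 3 * h + (4 * h + 6) * (i + 1)) * (Nat.card A + 1) :=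
  exists_det_gen M strict k κ (syC M κ) (fun w hw => by
    obtain ⟨c, h1, h2, h3⟩ := hfew w hw
    exact complete hg h1 h2 h3) h hh hcard i hi

end simulate

section bound

theorem card_XC (M : LimAut A) (k : ℕ) : Nat.card (XC M M.Q k) =
    (k + 1) * (Nat.card M.Q * (2 ^ (Nat.card M.Q * Nat.card M.Q) * 2 ^ Nat.card M.Q)) := by
  have := M.finQ
  have h1 : ∀ X : Type, Finite X → Nat.card (Set X) = 2 ^ Nat.card X := by
    intro X hX
    have : Nat.card (Set X) = Nat.card (X → Prop) := rfl
    rw [this, Nat.card_fun]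
    simp
  unfold XC
  rw [Nat.card_prod, Nat.card_prod, Nat.card_prod, h1 _ inferInstance, h1 _ inferInstance,
    Nat.card_prod]
  simp

theorem arithF (n c a : ℕ) (hn : 4 ≤ n) (hc : c ≤ n ^ 2) (ha : a + 1 ≤ 2 ^ n) :
    2 ^ (11 + 3 * (n ^ 2 + c) + (4 * (n ^ 2 + c) + 6) * (c + 1)) * (a + 1) ≤
      2 ^ (16 * (c + 1) * n ^ 2) := by
  calc 2 ^ (11 + 3 * (n ^ 2 + c) + (4 * (n ^ 2 + c) + 6) * (c + 1)) * (a + 1)
      ≤ 2 ^ (11 + 3 * (n ^ 2 + c) + (4 * (n ^ 2 + c) + 6) * (c + 1)) * 2 ^ n :=
        Nat.mul_le_mul_left _ ha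
    _ = 2 ^ (11 + 3 * (n ^ 2 + c) + (4 * (n ^ 2 + c) + 6) * (c + 1) + n) := by
        rw [pow_add 2 _ n]
    _ ≤ 2 ^ (16 * (c + 1) * n ^ 2) := by
        apply Nat.pow_le_pow_right (by omega)
        have h1 : 11 + n ≤ n ^ 2 := by nlinarith
        generalize n ^ 2 = N at *
        have h2 : (4 * (N + c) + 6) * (c + 1) ≤ (8 * N + 6) * (c + 1) :=
          Nat.mul_le_mul_right _ (by omega)
        have h3 : (8 * N + 6) * (c + 1) ≤ (9 * N) * (c + 1) := Nat.mul_le_mul_right _ (by omega)
        have h4 : 7 * N ≤ 7 * N * (c + 1) := Nat.le_mul_of_pos_right _ (by omega)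
        have h5 : 9 * N * (c + 1) + 7 * N * (c + 1) = 16 * (c + 1) * N := by ring
        omega

theorem After.congr {strict : Prop} {M : LimAut A} {C C' : Type} {κ : M.Q → C} {κ' : M.Q → C'}
    (hκ : ∀ p q, κ p = κ q → κ' p = κ' q) {w : List A} {j : ℕ}
    {c : Cfg M} (h : After strict κ w j c) : After strict κ' w j c := by
  induction h with
  | start j => exact .start j
  | keep j c c' _ h1 h2 ih => exact .keep j c c' ih h1 (hκ _ _ h2)
  | change j c c' _ h1 ih => exact .change j c c' ih h1

/-- The bound. -/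
theorem upper_few [Finite A] (M : LimAut A) (strict : Prop) (k : ℕ) {R : Type}
    (κ : M.Q → R) (hg : NoChoice strict M κ)
    (hfew : ∀ w ∈ M.language strict, ∃ c : Cfg M, After strict κ w k c ∧ c.pos = w.length + 2 ∧
      c.state ∈ M.F) :
    ∃ M' : LimAut A, M'.Deterministic ∧ M'.language strict = M.language strict ∧
      M'.size ≤ 2 ^ (16 * (min (Nat.clog 2 (k + 1)) (M.size ^ 2) + 1) * M.size ^ 2) := by
  have hfin := M.finQ
  have hne : Nonempty M.Q := ⟨M.q0⟩
  have hq : Nat.card M.Q + Nat.card A + 3 ≤ M.size := by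
    unfold LimAut.size
    omega
  have hq1 : 1 ≤ Nat.card M.Q := Nat.card_pos
  rcases le_or_gt (Nat.clog 2 (k + 1)) (M.size ^ 2) with hc | hc
  · rw [min_eq_left hc]
    let r : M.Q → M.Q := fun q => Function.invFun κ (κ q)
    have hr : ∀ p q, κ p = κ q → r p = r q := by
      intro p q h
      show Function.invFun κ (κ p) = Function.invFun κ (κ q)
      rw [h]
    have hr' : ∀ p q, r p = r q → κ p = κ q := by
      intro p q h
      have h1 : κ (r p) = κ p := Function.invFun_eq ⟨p, rfl⟩
      have h2 : κ (r q) = κ q := Function.invFun_eq ⟨q, rfl⟩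
      rw [← h1, ← h2, h]
    have hg' : NoChoice strict M r := by
      intro w c c' h1 h2 h3 h4 h5 h6 h7 h8 h9 q b d q' b' d' h10 h11 h12 h13
      exact hg w c c' h1 h2 h3 h4 h5 h6 h7 h8 (hr' _ _ h9) q b d q' b' d' h10 h11 (hr' _ _ h12)
        (hr' _ _ h13)
    have hcard : Nat.card (XC M M.Q k) ≤ 2 ^ (M.size ^ 2 + Nat.clog 2 (k + 1)) := by
      rw [card_XC]
      have h1 : k + 1 ≤ 2 ^ Nat.clog 2 (k + 1) := Nat.le_pow_clog (by omega) _
      have h2 : Nat.card M.Q ≤ 2 ^ Nat.card M.Q := (Nat.lt_two_pow_self).le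
      calc (k + 1) * (Nat.card M.Q * (2 ^ (Nat.card M.Q * Nat.card M.Q) * 2 ^ Nat.card M.Q))
          ≤ 2 ^ Nat.clog 2 (k + 1) * (2 ^ Nat.card M.Q *
            (2 ^ (Nat.card M.Q * Nat.card M.Q) * 2 ^ Nat.card M.Q)) :=
            Nat.mul_le_mul h1 (Nat.mul_le_mul_right _ h2)
        _ = 2 ^ ((Nat.card M.Q + (Nat.card M.Q * Nat.card M.Q + Nat.card M.Q)) +
            Nat.clog 2 (k + 1)) := by
            rw [pow_add 2 (Nat.card M.Q + (Nat.card M.Q * Nat.card M.Q + Nat.card M.Q)),
              pow_add 2 (Nat.card M.Q), pow_add 2 (Nat.card M.Q * Nat.card M.Q), Nat.mul_comm]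
        _ ≤ 2 ^ (M.size ^ 2 + Nat.clog 2 (k + 1)) := by
            apply Nat.pow_le_pow_right (by omega)
            generalize M.size = n at *
            generalize Nat.card M.Q = q at *
            obtain ⟨m, rfl⟩ : ∃ m, n = m + 3 := ⟨n - 3, by omega⟩
            have h3 : q ≤ m := by omega
            nlinarith [Nat.mul_le_mul h3 h3]
    obtain ⟨M', h1, h2, h3⟩ := exists_det_few M strict k r hg' (fun w hw => by
      obtain ⟨c, h1, h2⟩ := hfew w hw
      exact ⟨c, h1.congr hr, h2⟩) (M.size ^ 2 + Nat.clog 2 (k + 1)) (by nlinarith) hcard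
      (Nat.clog 2 (k + 1)) (Nat.le_pow_clog (by omega) _)
    refine ⟨M', h1, h2, h3.trans ?_⟩
    refine arithF M.size (Nat.clog 2 (k + 1)) (Nat.card A) (by omega) hc ?_
    calc Nat.card A + 1 ≤ M.size := by omega
      _ ≤ 2 ^ M.size := (Nat.lt_two_pow_self).le
  · rw [min_eq_right hc.le]
    obtain ⟨M', h1, h2, h3⟩ := Pool.Agent.H630R2.LA.upper M strict
    refine ⟨M', h1, h2, h3.trans ?_⟩
    apply Nat.pow_le_pow_right (by omega)
    have h4 : M.size + 2 ≤ 2 * M.size := by omega
    calc (M.size + 2) ^ 4 ≤ (2 * M.size) ^ 4 := Nat.pow_le_pow_left h4 4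
      _ = 16 * (M.size ^ 2) * M.size ^ 2 := by ring
      _ ≤ 16 * (M.size ^ 2 + 1) * M.size ^ 2 := Nat.mul_le_mul_right _ (by omega)

end bound

end Pool.Agent.TH588.KG
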