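import Mathlib
import Pool.Agent.TH588.KG.Few
import Pool.Agent.TH588.KG.AllBut

set_option autoImplicit false

/-!
1-limited automata that write in all but a bounded number of cells the symbol which is given by a
function of the input letter.
-/

namespace Pool.Agent.TH588.KG

open Relation
open Pool.Agent.H630R2.LA (Sym LimAut Cfg Step init fz Fr Tab ext nstep nreach initTape
  mem_language nr nr_zero lift Tab_zero Tab_succ forward)

variable {A : Type}

section count

variable (strict : Prop) (M : LimAut A) (k : ℕ) (g : A → M.W)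

/-- The invariant. -/
def InvS (w : List A) (c : Cfg M) : Prop :=
  ∃ m, m ≤ w.length + 1 ∧ (∀ i, 1 ≤ i → (i ∈ c.seen ↔ i ≤ m)) ∧
    (∀ i, m < i → c.tape i = initTape M w i) ∧ c.tape 0 = .lm ∧ c.pos ≤ m + 1 ∧
    ∀ S : Finset ℕ, (∀ i a, i < m → w[i]? = some a → i ∉ S → c.tape (i + 1) = .sym (g a)) →
      (S.filter (· < m)).card ≤ k → ∀ t,
      ReflTransGen (Fr strict M c.tape m) (c.state, c.pos) (t, m + 1) →
      Acc strict M k (fun _ => ()) (fun a _ _ => g a) w (S.filter (· < m)).card m
        (Tab strict M c.tape m) t

variable {strict M k g}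

theorem invS_init (w : List A) : InvS strict M k g w (init M w) := by
  refine ⟨0, by omega, ?_, ?_, rfl, le_refl _, ?_⟩
  · intro i hi
    simp [init]; omega
  · intro i _
    rfl
  · intro S _ _ t ht
    have ht' : ReflTransGen (Fr strict M (init M w).tape 0) (M.q0, 1) (t, 1) := ht
    rcases ReflTransGen.cases_head ht' with h1 | ⟨c', h1, _⟩
    · simp only [Prod.mk.injEq, and_true] at h1
      subst h1
      refine ⟨fun _ => ⟨(0, (), ext strict M ∅ .lm, {M.q0}), rfl, Nat.zero_le _, ?_, rfl⟩,
        fun h => absurd h (by omega)⟩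
      rw [Tab_zero]
      rfl
    · have := h1.1
      simp at this

theorem card_filter_le (S : Finset ℕ) (m : ℕ) :
    (S.filter (· < m)).card ≤ (S.filter (· < m + 1)).card := by
  apply Finset.card_le_card
  intro i hi
  rw [Finset.mem_filter] at hi ⊢
  exact ⟨hi.1, by omega⟩

theorem card_filter_succ {S : Finset ℕ} {m : ℕ} (hm : m ∈ S) :
    (S.filter (· < m + 1)).card = (S.filter (· < m)).card + 1 := by
  have h1 : S.filter (· < m + 1) = insert m (S.filter (· < m)) := by
    ext i
    rw [Finset.mem_insert, Finset.mem_filter, Finset.mem_filter]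
    constructor
    · rintro ⟨h1, h2⟩
      rcases Nat.lt_or_ge i m with h3 | h3
      · exact Or.inr ⟨h1, h3⟩
      · exact Or.inl (by omega)
    · rintro (rfl | ⟨h1, h2⟩)
      · exact ⟨hm, by omega⟩
      · exact ⟨h1, by omega⟩
  rw [h1, Finset.card_insert_of_notMem]
  intro h2
  rw [Finset.mem_filter] at h2
  omega

theorem invS_step {w : List A} {c c' : Cfg M} (hinv : InvS strict M k g w c)
    (hstep : Step strict w.length c c') : InvS strict M k g w c' := by
  obtain ⟨m, hm, hseen, htape, h0, hpos, hinv⟩ := hinv
  obtain ⟨hle, q, b, d, hδ, hstr, hst, ht1, ht2, hs', hr, hl⟩ := hstep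
  by_cases hfr : c.pos ≤ m
  · -- frozen move
    have htt : c'.tape = c.tape := by
      by_cases hmem : c.pos ∈ c.seen
      · exact ht1 hmem
      · have hp0 : c.pos = 0 := by
          by_contra hne
          exact hmem ((hseen c.pos (by omega)).2 hfr)
        rw [ht2 hmem, hp0, h0]
        funext i
        by_cases hi : i = 0
        · subst hi; simp [Sym.rewrite, h0]
        · simp [Function.update, hi]
    have hfz : fz strict M c.state (c.tape c.pos) q d := by
      refine ⟨b, hδ, ?_⟩
      intro hs
      by_cases hmem : c.pos ∈ c.seen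
      · exact hstr hs hmem
      · have hp0 : c.pos = 0 := by
          by_contra hne
          exact hmem ((hseen c.pos (by omega)).2 hfr)
        rw [hp0, h0]; rfl
    refine ⟨m, hm, ?_, ?_, ?_, ?_, ?_⟩
    · intro i hi
      rw [hs', Set.mem_insert_iff, hseen i hi]
      constructor
      · rintro (h | h)
        · omega
        · exact h
      · exact fun h => Or.inr h
    · intro i hi
      rw [htt]; exact htape i hi
    · rw [htt]; exact h0
    · cases d
      · have := hl rfl; omega
      · have := hr rfl; omega
    · intro S hS hk t ht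
      rw [htt] at ht hS ⊢
      apply hinv S hS hk t
      refine ReflTransGen.head ⟨hfr, d, ?_, hr, hl⟩ ht
      rw [hst]; exact hfz
  · -- first visit
    have hp : c.pos = m + 1 := by omega
    have hmw : m ≤ w.length := by omega
    have hnot : c.pos ∉ c.seen := by
      intro h
      have := (hseen c.pos (by omega)).1 h
      omega
    have htape' := ht2 hnot
    have hagree : ∀ i, i ≤ m → c'.tape i = c.tape i := by
      intro i hi
      rw [htape', Function.update_of_ne]
      omega
    have hnew : c'.tape (m + 1) = (initTape M w (m + 1)).rewrite b := by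
      rw [htape', hp, Function.update_self, htape _ (by omega)]
    rw [hp, htape _ (by omega)] at hδ
    refine ⟨m + 1, by omega, ?_, ?_, ?_, ?_, ?_⟩
    · intro i hi
      rw [hs', Set.mem_insert_iff, hseen i hi, hp]
      omega
    · intro i hi
      rw [htape', Function.update_of_ne (by omega)]
      exact htape i (by omega)
    · rw [hagree 0 (by omega)]; exact h0
    · cases d
      · have := hl rfl; omega
      · have := hr rfl; omega
    · intro S hS hk t ht
      have hcard := card_filter_le S m
      obtain ⟨x, hx, hxj, hxT, hxP⟩ := (hinv S (fun i a hi ha hiS => by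
        rw [← hagree (i + 1) (by omega)]
        exact hS i a (by omega) ha hiS) (hcard.trans hk) c.state (by
          rw [hp])).1 hmw
      have htab : Tab strict M c'.tape (m + 1) =
          ext strict M x.2.2.1 ((initTape M w (m + 1)).rewrite b) := by
        rw [hxT, Tab_succ, hnew, Pool.Agent.H630R2.LA.Tab.congr hagree]
      have hgo1 : d = true → t = q := by
        intro hd
        have h1 := hr hd
        rw [h1, hp, hst] at ht
        rcases ReflTransGen.cases_head ht with h2 | ⟨c2, h2, _⟩
        · simp only [Prod.mk.injEq, and_true] at h2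
          exact h2.symm
        · have := h2.1
          simp at this
      have hgo2 : d = false → ∃ s, (q, s) ∈ x.2.2.1 ∧ (s, t) ∈ Tab strict M c'.tape (m + 1) := by
        intro hd
        have h1 := hl hd
        have h2 : c'.pos = m := by omega
        rw [h2, hst] at ht
        obtain ⟨s, hs1, hs2⟩ := Pool.Agent.H630R2.LA.FrS.decomp ht (by simp)
        refine ⟨s, ?_, hs2⟩
        rw [hxT]
        exact Pool.Agent.H630R2.LA.FrS.congr hagree hs1
      refine ⟨fun hm1 => ?_, fun hm1 => ?_⟩
      · have hwt : w[m]? = some w[m] := List.getElem?_eq_getElem (by omega)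
        have hcell : initTape M w (m + 1) = .sym (M.inp w[m]) := by
          simp only [initTape, hwt]
        rw [hcell] at hδ htab hnew
        have htab' : Tab strict M c'.tape (m + 1) = ext strict M x.2.2.1 (.sym b) := htab
        by_cases hmS : m ∈ S
        · have hsucc := card_filter_succ hmS
          have hcnt : x.1.val + 1 < k + 1 := by omega
          refine ⟨(⟨x.1.val + 1, hcnt⟩, (), Tab strict M c'.tape (m + 1),
            imgC M (fun _ => ()) x.2.2.1 (Tab strict M c'.tape (m + 1)) (.sym (M.inp w[m])) b
              x.2.2.2 ()),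
            ⟨x, hx, w[m], hwt, Or.inr ⟨?_, b, htab', rfl⟩⟩, ?_, rfl, rfl, c.state, hxP, q, d, hδ,
            hgo1, hgo2⟩
          · rw [Fin.lt_def]
            exact Nat.lt_succ_self _
          · show x.1.val + 1 ≤ _
            omega
        · have hb : g w[m] = b := by
            have h5 := hS m w[m] (by omega) hwt hmS
            rw [hnew] at h5
            have h6 : (Sym.sym b : Sym M.W) = .sym (g w[m]) := h5
            cases h6
            rfl
          subst hb
          refine ⟨dC strict M (fun _ => ()) (fun a _ _ => g a) w[m] x,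
            ⟨x, hx, w[m], hwt, Or.inl rfl⟩, ?_, htab'.symm, rfl, c.state, hxP, q, d, hδ, hgo1, ?_⟩
          · show x.1.val ≤ _
            omega
          · intro hd
            obtain ⟨s, h6, h7⟩ := hgo2 hd
            refine ⟨s, h6, ?_⟩
            rw [← htab']
            exact h7
      · have hm2 : m = w.length := by omega
        subst hm2
        have hcell : initTape M w (w.length + 1) = .rm := by
          simp only [initTape, List.getElem?_eq_none (le_refl w.length)]
        rw [hcell] at hδ htab
        exact ⟨x, hx, c.state, hxP, q, b, d, hδ, htab, hgo1, hgo2⟩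

theorem completeS {w : List A} {c : Cfg M}
    (h : ReflTransGen (Step strict w.length) (init M w) c) (hp : c.pos = w.length + 2)
    (hf : c.state ∈ M.F) (hb : AllBut M g k w c.tape) :
    ∃ x : XC M Unit k, creach strict M (fun _ => ()) (fun a _ _ => g a) w w.length x ∧
      ∃ p ∈ x.2.2.2, ∃ y, nstep strict M .rm (x.2.2.1, p) y ∧ y.2 ∈ M.F := by
  have hI : InvS strict M k g w c := by
    clear hp hf hb
    induction h with
    | refl => exact invS_init w
    | tail _ hs ih => exact invS_step ih hs
  obtain ⟨S, hS1, hS2⟩ := hb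
  obtain ⟨m, hm, _, _, _, hpos, hinv⟩ := hI
  have hm' : m = w.length + 1 := by omega
  subst hm'
  obtain ⟨x, hx, p, hxP, hn⟩ := (hinv S (fun i a _ ha hi => hS2 i a ha hi)
    ((Finset.card_filter_le _ _).trans hS1) c.state (by rw [hp])).2 rfl
  exact ⟨x, hx, p, hxP, _, hn, hf⟩

end count

section bound

theorem card_XU (M : LimAut A) (k : ℕ) : Nat.card (XC M Unit k) =
    (k + 1) * (2 ^ (Nat.card M.Q * Nat.card M.Q) * 2 ^ Nat.card M.Q) := by
  have := M.finQ
  have h1 : ∀ X : Type, Finite X → Nat.card (Set X) = 2 ^ Nat.card X := by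
    intro X hX
    have : Nat.card (Set X) = Nat.card (X → Prop) := rfl
    rw [this, Nat.card_fun]
    simp
  unfold XC
  rw [Nat.card_prod, Nat.card_prod, Nat.card_prod, h1 _ inferInstance, h1 _ inferInstance,
    Nat.card_prod]
  simp

/-- The bound. -/
theorem upper_sparse [Finite A] (M : LimAut A) (strict : Prop) (k : ℕ) (g : A → M.W)
    (hfew : ∀ w ∈ M.language strict, ∃ c : Cfg M,
      ReflTransGen (Step strict w.length) (init M w) c ∧ c.pos = w.length + 2 ∧ c.state ∈ M.F ∧
      AllBut M g k w c.tape) :
    ∃ M' : LimAut A, M'.Deterministic ∧ M'.language strict = M.language strict ∧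
      M'.size ≤ 2 ^ (16 * (min (Nat.clog 2 (k + 1)) (M.size ^ 2) + 1) * M.size ^ 2) := by
  have hfin := M.finQ
  have hne : Nonempty M.Q := ⟨M.q0⟩
  have hq : Nat.card M.Q + Nat.card A + 3 ≤ M.size := by
    unfold LimAut.size
    omega
  have hq1 : 1 ≤ Nat.card M.Q := Nat.card_pos
  rcases le_or_gt (Nat.clog 2 (k + 1)) (M.size ^ 2) with hc | hc
  · rw [min_eq_left hc]
    have hcard : Nat.card (XC M Unit k) ≤ 2 ^ (M.size ^ 2 + Nat.clog 2 (k + 1)) := by
      rw [card_XU]
      have h1 : k + 1 ≤ 2 ^ Nat.clog 2 (k + 1) := Nat.le_pow_clog (by omega) _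
      calc (k + 1) * (2 ^ (Nat.card M.Q * Nat.card M.Q) * 2 ^ Nat.card M.Q)
          ≤ 2 ^ Nat.clog 2 (k + 1) * (2 ^ (Nat.card M.Q * Nat.card M.Q) * 2 ^ Nat.card M.Q) :=
            Nat.mul_le_mul_right _ h1
        _ = 2 ^ ((Nat.card M.Q * Nat.card M.Q + Nat.card M.Q) + Nat.clog 2 (k + 1)) := by
            rw [pow_add 2 (Nat.card M.Q * Nat.card M.Q + Nat.card M.Q),
              pow_add 2 (Nat.card M.Q * Nat.card M.Q), Nat.mul_comm]
        _ ≤ 2 ^ (M.size ^ 2 + Nat.clog 2 (k + 1)) := by
            apply Nat.pow_le_pow_right (by omega)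
            generalize M.size = n at *
            generalize Nat.card M.Q = q at *
            obtain ⟨m, rfl⟩ : ∃ m, n = m + 3 := ⟨n - 3, by omega⟩
            have h3 : q ≤ m := by omega
            nlinarith [Nat.mul_le_mul h3 h3]
    obtain ⟨M', h1, h2, h3⟩ := exists_det_gen M strict k (fun _ => ()) (fun a _ _ => g a)
      (fun w hw => by
        obtain ⟨c, h1, h2, h3, h4⟩ := hfew w hw
        exact completeS h1 h2 h3 h4) (M.size ^ 2 + Nat.clog 2 (k + 1)) (by nlinarith) hcard
      (Nat.clog 2 (k + 1)) (Nat.le_pow_clog (by omega) _)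
    refine ⟨M', h1, h2, h3.trans ?_⟩
    refine arithF M.size (Nat.clog 2 (k + 1)) (Nat.card A) (by omega) hc ?_
    calc Nat.card A + 1 ≤ M.size := by omega
      _ ≤ 2 ^ M.size := (Nat.lt_two_pow_self).le
  · rw [min_eq_right hc.le]
    obtain ⟨M', h1, h2, h3⟩ := Pool.Agent.H630R2.LA.upper M strict
    refine ⟨M', h1, h2, h3.trans ?_⟩
    apply Nat.pow_le_pow_right (by omega)
    have h4 : M.size + 2 ≤ 2 * M.size := by omega
    calc (M.size + 2) ^ 4 ≤ (2 * M.size) ^ 4 := Nat.pow_le_pow_left h4 4
      _ = 16 * (M.size ^ 2) * M.size ^ 2 := by ring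
      _ ≤ 16 * (M.size ^ 2 + 1) * M.size ^ 2 := Nat.mul_le_mul_right _ (by omega)

/-- If the moves never lower the rank, and those on input letters that keep it write the symbol
given by `g`, then the rank bounds the number of cells that contain another symbol. -/
theorem allBut_of_rank {M : LimAut A} {strict : Prop} {rk : M.Q → ℕ} {g : A → M.W}
    (hm : ∀ p σ q b d, (q, b, d) ∈ M.δ p σ → rk p ≤ rk q)
    (hg : ∀ p a q b d, (q, b, d) ∈ M.δ p (.sym (M.inp a)) → rk q = rk p → b = g a)
    {w : List A} {c : Cfg M} (h : ReflTransGen (Step strict w.length) (init M w) c)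
    (hp : c.pos = w.length + 2) : AllBut M g (rk c.state) w c.tape := by
  have key : ∃ S : Finset ℕ, S.card ≤ rk c.state ∧ ∀ i a, w[i]? = some a → i + 1 ∈ c.seen →
      i ∉ S → c.tape (i + 1) = .sym (g a) := by
    clear hp
    induction h with
    | refl => exact ⟨∅, by simp, fun i a _ h _ => absurd h (Set.notMem_empty _)⟩
    | tail h1 hstep ih =>
      rename_i c c'
      obtain ⟨S, hS1, hS2⟩ := ih
      obtain ⟨m, hmw, hseen, htape, h0, hpos, -⟩ := forward w c h1
      obtain ⟨hle, q, b, d, hδ, hstr, hst, ht1, ht2, hs', hr, hl⟩ := hstep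
      have hmono : rk c.state ≤ rk c'.state := by
        rw [hst]
        exact hm _ _ _ _ _ hδ
      by_cases hmem : c.pos ∈ c.seen
      · refine ⟨S, hS1.trans hmono, fun i a ha hi hiS => ?_⟩
        rw [ht1 hmem]
        rw [hs', Set.insert_eq_of_mem hmem] at hi
        exact hS2 i a ha hi hiS
      · have ht := ht2 hmem
        have hold : ∀ i a, w[i]? = some a → i + 1 ∈ c'.seen → i + 1 ≠ c.pos → i ∉ S →
            c'.tape (i + 1) = .sym (g a) := by
          intro i a ha hi hne hiS
          rw [ht, Function.update_of_ne hne]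
          rw [hs', Set.mem_insert_iff] at hi
          rcases hi with hi | hi
          · exact absurd hi hne
          · exact hS2 i a ha hi hiS
        rcases Nat.eq_zero_or_pos c.pos with hp0 | hp0
        · exact ⟨S, hS1.trans hmono, fun i a ha hi hiS => hold i a ha hi (by omega) hiS⟩
        · by_cases hrk : rk c'.state = rk c.state
          · refine ⟨S, hS1.trans hmono, fun i a ha hi hiS => ?_⟩
            by_cases hne : i + 1 = c.pos
            · have hlt : m < c.pos := by
                by_contra hcon
                exact hmem ((hseen c.pos hp0).2 (by omega))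
              have hcell : c.tape c.pos = .sym (M.inp a) := by
                rw [htape _ hlt, ← hne]
                simp only [initTape, ha]
              rw [hcell] at hδ ht
              have hb : b = g a := hg _ _ _ _ _ hδ (by rw [← hst]; exact hrk)
              rw [ht, hne, Function.update_self, hb]
              rfl
            · exact hold i a ha hi hne hiS
          · refine ⟨insert (c.pos - 1) S, ?_, fun i a ha hi hiS => ?_⟩
            · have h2 := Finset.card_insert_le (c.pos - 1) S
              omega
            · rw [Finset.mem_insert, not_or] at hiS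
              exact hold i a ha hi (by omega) hiS.2
  obtain ⟨S, hS1, hS2⟩ := key
  obtain ⟨m, hmw, hseen, -, -, hpos, -⟩ := forward w c h
  refine ⟨S, hS1, fun i a ha hi => hS2 i a ha ?_ hi⟩
  obtain ⟨hlt, -⟩ := List.getElem?_eq_some_iff.1 ha
  exact (hseen (i + 1) (by omega)).2 (by omega)

end bound

end Pool.Agent.TH588.KG
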